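import Pool.Agent.Helper88.SP.Defs

/-!
# Albanese curves; the varieties of the transfer theorem
-/

set_option autoImplicit false
set_option linter.unusedVariables false

open CategoryTheory CategoryTheory.Limits Pool.Agent.Helper81.Smash

namespace Pool.Agent.Helper88.SP

universe u v w

variable {𝒱 : Type u} [Category.{v} 𝒱] [HasFiniteProducts 𝒱] {S : HomCycles.{u, v, w} 𝒱}

namespace PushForward

variable (K : PushForward S)

/-- `graph f - D × f(p) - p × f_* D`: the component of the class of the graph of `f : D ⟶ X` in `h¹(D) ⊗ h(X)`,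
for a curve `D` -/
noncomputable def oddGraph {D X : 𝒱} (p : ⊤_ 𝒱 ⟶ D) (f : D ⟶ X) : S.A (D ⨯ X) :=
  K.graph f - ext (unit S D) (K.pt (p ≫ f)) - ext (K.pt p) (K.pf f (unit S D))

/-- `oddGraph` minus its image under the correspondences `ρ` from `X` to `C` and `τ` from `C` to `X` -/
noncomputable def residue {X C D : 𝒱} (ρ : S.A (X ⨯ C)) (τ : S.A (C ⨯ X)) (p : ⊤_ 𝒱 ⟶ D) (f : D ⟶ X) :
    S.A (D ⨯ X) :=
  K.oddGraph p f - K.compose (K.compose (K.graph f) ρ) τ

/-- `C`, `ρ`, `τ` is an Albanese curve of `X`, as the curves `C` on `X` for which the Jacobian of `C` is mapped onto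
the Albanese variety of `X`: the part of the diagonal of `X` in `H¹(X) ⊗ H(X)` is homologically equivalent to the
composition of a divisor `ρ` on `X × C` and a correspondence `τ` from `C` to `X` of degree zero. It is enough to
test this on the graphs of the morphisms `f` from curves to `X`. -/
def IsAlbanese (X C : 𝒱) (ρ : S.A (X ⨯ C)) (τ : S.A (C ⨯ X)) : Prop :=
  S.dim C = 1 ∧ ρ ∈ S.gr (X ⨯ C) 1 ∧ τ ∈ S.gr (C ⨯ X) (S.dim X) ∧
    ∀ (D : 𝒱) (p : ⊤_ 𝒱 ⟶ D) (f : D ⟶ X), S.dim D = 1 → IsHom (K.residue ρ τ p f)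

/-- `C` is an Albanese curve of `X`. -/
def AlbaneseCurve (X C : 𝒱) : Prop := ∃ (ρ : S.A (X ⨯ C)) (τ : S.A (C ⨯ X)), K.IsAlbanese X C ρ τ

/-- the residues of all morphisms from curves to `X` (cycles of dimension one on `D × X`, homologically equivalent
to zero) are smash-nilpotent, for some Albanese curve of `X` -/
def ResiduesNilpotent (X : 𝒱) : Prop :=
  ∃ (C : 𝒱) (ρ : S.A (X ⨯ C)) (τ : S.A (C ⨯ X)), K.IsAlbanese X C ρ τ ∧
    ∀ (D : 𝒱) (p : ⊤_ 𝒱 ⟶ D) (f : D ⟶ X), S.dim D = 1 → S.SmashNilpotent (K.residue ρ τ p f)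

/-- all surfaces have Albanese curves -/
def Albanese : Prop := ∀ A : 𝒱, S.dim A = 2 → ∃ C : 𝒱, K.AlbaneseCurve A C

/-- Voevodsky's conjecture for the 1-cycles on `Y × C` for all curves `C` -/
def OverCurves (S : HomCycles.{u, v, w} 𝒱) (Y : 𝒱) : Prop := ∀ C : 𝒱, S.dim C = 1 → Voevodsky S (Y ⨯ C) 1

/-- the factors `X` of the transfer theorem: Voevodsky's conjecture holds for the 1-cycles on `X`, and the motive of
`X` is evenly finite-dimensional up to motives of curves, or `X` has an Albanese curve and Voevodsky's conjecture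
holds for the 1-cycles on `X × C` for all curves `C` -/
def Transferable (X : 𝒱) : Prop :=
  Voevodsky S X 1 ∧ (K.EvenUpToCurves X 1 ∨ (∃ C : 𝒱, K.AlbaneseCurve X C) ∧ OverCurves S X)

/-- `Z` is dominated by `X` -/
def DominatedBy (X Z : 𝒱) : Prop := ∃ f : X ⟶ Z, K.Surjective f

/-- `H₁(A) ⟶ H₁(X)` is injective: if the class of a one-dimensional cycle `w` on `A × T` vanishes on `X × T`, then
only its component in `H₂(A)` can be different from zero. -/
def InjectiveOnH₁ {A X : 𝒱} (ι : A ⟶ X) : Prop :=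
  ∀ (T : 𝒱) (t : ⊤_ 𝒱 ⟶ T) (w : S.A (A ⨯ T)), IsCycle 1 w → IsHom (K.pf (timesRight ι T) w) →
    IsHom (w - ext (K.pf (pr₁ A T) w) (K.pt t))

/-- For all products, Voevodsky's conjecture for the 1-cycles on the product is equivalent to Voevodsky's conjecture
for the 1-cycles on all factors. -/
def Multiplicative (S : HomCycles.{u, v, w} 𝒱) : Prop :=
  ∀ (n : ℕ) (X : Fin n → 𝒱), 1 ≤ n → (Voevodsky S (∏ᶜ X) 1 ↔ ∀ i, Voevodsky S (X i) 1)

/-- Bertini, Lefschetz: finitely many curves in `X` are on a surface `A` such that `H₁(A) ⟶ H₁(X)` is injective. -/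
def Lefschetz : Prop :=
  ∀ (X : 𝒱) (n : ℕ) (D : Fin n → 𝒱) (f : ∀ i, D i ⟶ X), (∀ i, S.dim (D i) = 1) →
    ∃ (A : 𝒱) (ι : A ⟶ X) (g : ∀ i, D i ⟶ A), S.dim A = 2 ∧ K.InjectiveOnH₁ ι ∧ ∀ i, g i ≫ ι = f i

end PushForward

end Pool.Agent.Helper88.SP
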