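import Pool.Agent.Helper88.SQ.Transfer
import Pool.Agent.Helper88.SQ.Defs
import Pool.Agent.Helper88.SP.Final

/-!
# Transfer through an Albanese curve
-/

set_option autoImplicit false
set_option linter.unusedVariables false

open CategoryTheory CategoryTheory.Limits Pool.Agent.Helper81.Smash Equiv

namespace Pool.Agent.Helper88.SP

attribute [local simp] prod.lift_fst prod.lift_snd prod.lift_fst_assoc prod.lift_snd_assoc

universe u v w

variable {𝒱 : Type u} [Category.{v} 𝒱] [HasFiniteProducts 𝒱] {S : HomCycles.{u, v, w} 𝒱} {K : PushForward S}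

/-- the residues are one-dimensional cycles -/
lemma residue_mem (hK : K.RStandard) {X C D : 𝒱} {ρ : S.A (X ⨯ C)} {τ : S.A (C ⨯ X)} (hA : K.IsAlbanese X C ρ τ)
    (p : ⊤_ 𝒱 ⟶ D) (f : D ⟶ X) (hD : S.dim D = 1) : K.residue ρ τ p f ∈ cycles S (D ⨯ X) 1 := by
  have hF := hK.isFunctor
  have hV := hK.varieties
  obtain ⟨hC, hρ, hτ, hA⟩ := hA
  refine Submodule.sub_mem _ ?_ ?_
  · have e1 : K.push f 1 ∈ cycles S X 1 := hF.push_cycles _ _ _ (one_mem_cycles hD)
    refine Submodule.sub_mem _ (Submodule.sub_mem _ (hF.push_cycles _ _ _ (one_mem_cycles hD)) ?_) ?_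
    · exact ext_mem_cycles (d := 1) (e := 0) hV (one_mem_cycles hD) (pt_mem hF hV _)
    · have := ext_mem_cycles (d := 0) (e := 1) hV (pt_mem hF hV p) e1
      rwa [zero_add] at this
  · have e2 : K.graph f ∈ S.gr (D ⨯ X) (S.dim X) := by
      refine (mem_cycles_iff (d := 1) ?_).mp (hF.push_cycles _ _ _ (one_mem_cycles hD))
      rw [S.dim_prod]
      omega
    have e3 : comp K (K.graph f) ρ ∈ S.gr (D ⨯ C) 1 := by
      refine (mem_cycles_iff (d := 1) ?_).mp (comp_mem_cycles hF hV e2 hρ ?_)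
      · rw [S.dim_prod]
        omega
      · omega
    exact comp_mem_cycles hF hV e3 hτ (by omega)

theorem transfer_residue (hK : K.RStandard) (hO : K.CurvesOdd) {X Y C : 𝒱} {ρ : S.A (X ⨯ C)} {τ : S.A (C ⨯ X)}
    (hA : K.IsAlbanese X C ρ τ) (hX : Voevodsky S X 1)
    (hR : ∀ (D : 𝒱) (p : ⊤_ 𝒱 ⟶ D) (f : D ⟶ X), S.dim D = 1 → S.SmashNilpotent (K.residue ρ τ p f))
    (hY : Voevodsky S (Y ⨯ C) 1) : Voevodsky S (Y ⨯ X) 1 := by
  have hF := hK.isFunctor
  have hB := hK.baseChange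
  have hV := hK.varieties
  obtain ⟨x₀⟩ := hV.points X
  obtain ⟨y₀⟩ := hV.points Y
  obtain ⟨hC, hρ, hτ, hA⟩ := hA
  have hR : ∀ (D : 𝒱) (p : ⊤_ 𝒱 ⟶ D) (f : D ⟶ X), S.dim D = 1 →
      gam K p (p ≫ f) f - comp K (comp K (K.graph f) ρ) τ ∈ Sn S (D ⨯ X) := hR
  let Ψ : S.A (Y ⨯ X) →ₗ[ℚ] S.A (Y ⨯ X) := LinearMap.id - (compL K Y C X).flip τ ∘ₗ (compL K Y X C).flip ρ -
    (extL S Y X).flip (K.pt x₀) ∘ₗ K.push prod.fst - extL S Y X (K.pt y₀) ∘ₗ K.push prod.snd
  have hΨ : ∀ w, Ψ w = w - comp K (comp K w ρ) τ - ext (K.push prod.fst w) (K.pt x₀) -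
    ext (K.pt y₀) (K.push prod.snd w) := fun w => rfl
  have h1 : cycles S (Y ⨯ X) 1 ≤ (Sn S (Y ⨯ X)).comap Ψ := by
    refine (hV.oneCycles _).trans (Submodule.span_le.mpr ?_)
    rintro _ ⟨D, F, hD, rfl⟩
    obtain ⟨p⟩ := hV.points D
    rw [SetLike.mem_coe, Submodule.mem_comap, hΨ]
    obtain ⟨g, hg⟩ : ∃ g, g = F ≫ prod.fst := ⟨_, rfl⟩
    obtain ⟨f, hf⟩ : ∃ f, f = F ≫ prod.snd := ⟨_, rfl⟩
    have hF' : F = prod.lift g f := by
      rw [hg, hf]
      ext <;> simp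
    have h2 : K.push F 1 = K.push (prod.map g (𝟙 X)) (K.graph f) := by
      unfold PushForward.graph
      rw [← hF.push_comp, prod.lift_map, Category.id_comp, Category.comp_id, hF']
    have h7 : K.push prod.fst (K.push F 1) = K.push g 1 := by
      rw [← hF.push_comp, hg]
    have h8 : K.push prod.snd (K.push F 1) = K.push f 1 := by
      rw [← hF.push_comp, hf]
    have h4 := hR D p f hD
    have h9 : K.push F 1 - comp K (comp K (K.push F 1) ρ) τ - ext (K.push g 1) (K.pt x₀) -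
        ext (K.pt y₀) (K.push f 1) =
        K.push (prod.map g (𝟙 X)) (gam K p (p ≫ f) f - comp K (comp K (K.graph f) ρ) τ) +
        ext (K.push g 1) (K.pt (p ≫ f) - K.pt x₀) + ext (K.pt (p ≫ g) - K.pt y₀) (K.push f 1) := by
      rw [h2, comp_push hF hB, comp_push hF hB]
      unfold gam
      rw [map_sub, map_sub, map_sub, push_ext hF hB, push_ext hF hB, push_pt p hF, ext_sub_right, ext_sub_left]
      abel
    rw [h7, h8, h9]
    exact Submodule.add_mem _ (Submodule.add_mem _ (sn_push hF _ h4)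
      (sn_ext_right _ (pt_sub_pt_sn hK hO _ _))) (sn_ext_left (pt_sub_pt_sn hK hO _ _) _)
  intro w hw hw'
  have h2 : K.push prod.fst w ∈ Sn S Y :=
    voev_sn (of_prod hK hY).1 (hF.push_cycles _ _ _ hw) (hF.push_hom _ _ hw')
  have h3 : K.push prod.snd w ∈ Sn S X :=
    voev_sn hX (hF.push_cycles _ _ _ hw) (hF.push_hom _ _ hw')
  have h5 : comp K w ρ ∈ Sn S (Y ⨯ C) := by
    by_cases h9 : 1 ≤ S.dim (Y ⨯ X)
    · rw [S.dim_prod] at h9
      have h10 : w ∈ S.gr (Y ⨯ X) (S.dim Y + S.dim X - 1) :=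
        (mem_cycles_iff (by rw [S.dim_prod]; omega)).mp hw
      exact voev_sn hY (comp_mem_cycles hF hV h10 hρ (by omega)) (comp_hom hF hw' ρ)
    · rw [eq_zero_of_mem_cycles (not_le.mp h9) hw]
      unfold comp
      rw [map_zero, zero_mul, map_zero]
      exact Submodule.zero_mem _
  have h6 := h1 hw
  rw [Submodule.mem_comap, hΨ] at h6
  have h13 : w = w - comp K (comp K w ρ) τ - ext (K.push prod.fst w) (K.pt x₀) - ext (K.pt y₀) (K.push prod.snd w) +
      comp K (comp K w ρ) τ + ext (K.push prod.fst w) (K.pt x₀) + ext (K.pt y₀) (K.push prod.snd w) := by abel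
  have h14 : w ∈ Sn S (Y ⨯ X) := by
    rw [h13]
    exact Submodule.add_mem _ (Submodule.add_mem _ (Submodule.add_mem _ h6 (comp_sn hF h5 τ)) (sn_ext_left h2 _))
      (sn_ext_right _ h3)
  exact h14

theorem transfer_albanese (hK : K.RStandard) (hO : K.CurvesOdd) {X Y C : 𝒱} (hA : K.AlbaneseCurve X C)
    (hX : ∀ D, S.dim D = 1 → Voevodsky S (D ⨯ X) 1) (hY : Voevodsky S (Y ⨯ C) 1) : Voevodsky S (Y ⨯ X) 1 := by
  obtain ⟨ρ, τ, hA⟩ := hA
  exact transfer_residue hK hO hA (of_prod hK (hX C hA.1)).2 (fun D p f hD =>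
    hX D hD _ (residue_mem hK hA p f hD) (hA.2.2.2 D p f hD)) hY

/-- the exchange of the factors as an isomorphism -/
noncomputable def swIso (X Y : 𝒱) : X ⨯ Y ≅ Y ⨯ X := ⟨sw X Y, sw Y X, sw_sw _ _, sw_sw _ _⟩

/-- the factors of the transfer theorem -/
theorem transferable (hK : K.RStandard) (hO : K.CurvesOdd) {X Y : 𝒱} (hX : K.Transferable X)
    (hY : PushForward.OverCurves S Y) : Voevodsky S (Y ⨯ X) 1 := by
  have hF := hK.isFunctor
  obtain ⟨hX1, hX | ⟨⟨C, hC⟩, hX⟩⟩ := hX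
  · exact transfer hK hO le_rfl hX hX1 (of_prod hK (hY S.line S.dim_line)).1 fun _ => hY
  · exact transfer_albanese hK hO hC (fun D hD => voev_iso hF (swIso X D) (hX D hD)) (hY C hC.choose_spec.choose_spec.1)

/-- curves -/
lemma overCurves_curve (hS : ∀ X : 𝒱, S.dim X = 2 → Voevodsky S X 1) {C : 𝒱} (hC : S.dim C = 1) :
    PushForward.OverCurves S C := fun C' hC' => hS _ (by rw [S.dim_prod]; omega)

/-- the factors of the transfer theorem over curves -/
theorem overCurves_of_transferable (hK : K.RStandard) (hO : K.CurvesOdd)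
    (hS : ∀ X : 𝒱, S.dim X = 2 → Voevodsky S X 1) {X : 𝒱} (hX : K.Transferable X) : PushForward.OverCurves S X :=
  fun C hC => voev_iso hK.isFunctor (swIso C X) (transferable hK hO hX (overCurves_curve hS hC))

/-- **products** -/
theorem products (hK : K.RStandard) (hO : K.CurvesOdd) (hS : ∀ X : 𝒱, S.dim X = 2 → Voevodsky S X 1) {n : ℕ}
    (X : Fin n → 𝒱) (hX : ∀ i, K.Transferable (X i)) {Y : 𝒱} (hY : PushForward.OverCurves S Y) {Z : 𝒱}
    (hZ : K.DominatedBy (Y ⨯ ∏ᶜ X) Z) : Voevodsky S Z 1 := by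
  obtain ⟨f, hf⟩ := hZ
  exact dominated hK hf (many hK hO n X Y (of_prod hK (hY S.line S.dim_line)).1
    (fun i => transferable hK hO (hX i) hY) fun i j _ =>
    transferable hK hO (hX j) (overCurves_of_transferable hK hO hS (hX i)))

end Pool.Agent.Helper88.SP
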