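import Pool.Agent.Helper88.SQ.Many

/-!
# Composition of correspondences
-/

set_option autoImplicit false
set_option linter.unusedVariables false

open CategoryTheory CategoryTheory.Limits Pool.Agent.Helper81.Smash Equiv

namespace Pool.Agent.Helper88.SP

attribute [local simp] prod.lift_fst prod.lift_snd prod.lift_fst_assoc prod.lift_snd_assoc

universe u v w

variable {𝒱 : Type u} [Category.{v} 𝒱] [HasFiniteProducts 𝒱] {S : HomCycles.{u, v, w} 𝒱} {K : PushForward S}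

/-- `(y, (x, z)) ↦ (x, y)` -/
noncomputable def cl (X Y Z : 𝒱) : Y ⨯ (X ⨯ Z) ⟶ X ⨯ Y := prod.lift (prod.snd ≫ prod.fst) prod.fst

/-- `(y, (x, z)) ↦ (y, z)` -/
noncomputable def cr (X Y Z : 𝒱) : Y ⨯ (X ⨯ Z) ⟶ Y ⨯ Z := prod.lift prod.fst (prod.snd ≫ prod.snd)

/-- the composition of the correspondences `a` and `b` -/
noncomputable def comp (K : PushForward S) {X Y Z : 𝒱} (a : S.A (X ⨯ Y)) (b : S.A (Y ⨯ Z)) : S.A (X ⨯ Z) :=
  int K (S.pull (cl X Y Z) a * S.pull (cr X Y Z) b)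

lemma compose_eq {X Y Z : 𝒱} (a : S.A (X ⨯ Y)) (b : S.A (Y ⨯ Z)) : K.compose a b = comp K a b := rfl

lemma comp_add_left {X Y Z : 𝒱} (a a' : S.A (X ⨯ Y)) (b : S.A (Y ⨯ Z)) :
    comp K (a + a') b = comp K a b + comp K a' b := by
  unfold comp
  rw [map_add, add_mul, map_add]

lemma comp_add_right {X Y Z : 𝒱} (a : S.A (X ⨯ Y)) (b b' : S.A (Y ⨯ Z)) :
    comp K a (b + b') = comp K a b + comp K a b' := by
  unfold comp
  rw [map_add, mul_add, map_add]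

lemma comp_smul_left {X Y Z : 𝒱} (q : ℚ) (a : S.A (X ⨯ Y)) (b : S.A (Y ⨯ Z)) :
    comp K (q • a) b = q • comp K a b := by
  unfold comp
  rw [map_smul, smul_mul_assoc, map_smul]

lemma comp_smul_right {X Y Z : 𝒱} (q : ℚ) (a : S.A (X ⨯ Y)) (b : S.A (Y ⨯ Z)) :
    comp K a (q • b) = q • comp K a b := by
  unfold comp
  rw [map_smul, mul_smul_comm, map_smul]

/-- composition as a bilinear map -/
noncomputable def compL (K : PushForward S) (X Y Z : 𝒱) : S.A (X ⨯ Y) →ₗ[ℚ] S.A (Y ⨯ Z) →ₗ[ℚ] S.A (X ⨯ Z) :=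
  LinearMap.mk₂ ℚ (fun a b => comp K a b) (fun a a' b => comp_add_left a a' b) (fun q a b => comp_smul_left q a b)
    (fun a b b' => comp_add_right a b b') (fun q a b => comp_smul_right q a b)

lemma compL_apply {X Y Z : 𝒱} (a : S.A (X ⨯ Y)) (b : S.A (Y ⨯ Z)) : compL K X Y Z a b = comp K a b := rfl

lemma comp_sub_right {X Y Z : 𝒱} (a : S.A (X ⨯ Y)) (b b' : S.A (Y ⨯ Z)) :
    comp K a (b - b') = comp K a b - comp K a b' := by
  rw [← compL_apply, map_sub]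
  rfl

lemma comp_sn (hF : K.RFunctor) {X Y Z : 𝒱} {a : S.A (X ⨯ Y)} (ha : a ∈ Sn S (X ⨯ Y)) (b : S.A (Y ⨯ Z)) :
    comp K a b ∈ Sn S (X ⨯ Z) := sn_push hF _ (sn_mul (sn_pull _ ha) _)

lemma comp_hom (hF : K.RFunctor) {X Y Z : 𝒱} {a : S.A (X ⨯ Y)} (ha : a ∈ S.hom (X ⨯ Y)) (b : S.A (Y ⨯ Z)) :
    comp K a b ∈ S.hom (X ⨯ Z) := hF.push_hom _ _ ((S.hom _).mul_mem_right _ (S.pull_hom _ ha))

/-- composition with the diagonal -/
lemma comp_graph (hF : K.RFunctor) (hB : K.RBase) {X Y : 𝒱} (a : S.A (X ⨯ Y)) : comp K a (K.graph (𝟙 Y)) = a := by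
  unfold comp
  have h1 : S.pull (cr X Y Y) (K.graph (𝟙 Y)) = dia K (prod.snd : X ⨯ Y ⟶ Y) := by
    unfold cr dia
    congr 2
    ext <;> simp
  rw [h1, mul_comm, int_dia hF hB, ← S.pull_comp]
  have h2 : sec (prod.snd : X ⨯ Y ⟶ Y) ≫ cl X Y Y = 𝟙 _ := by
    unfold sec cl
    ext <;> simp
  rw [h2, S.pull_id]

/-- composition is associative -/
lemma comp_assoc (hF : K.RFunctor) (hB : K.RBase) {X Y Z W : 𝒱} (a : S.A (X ⨯ Y)) (b : S.A (Y ⨯ Z)) (c : S.A (Z ⨯ W)) :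
    comp K a (comp K b c) = comp K (comp K a b) c := by
  unfold comp
  rw [pull_int hB, pull_int hB, ← int_mul' hF, ← int_mul hF, int_swap hF]
  congr 2
  simp only [map_mul, ← S.pull_comp]
  have e1 : (prod.lift (prod.snd ≫ prod.fst) (prod.lift prod.fst (prod.snd ≫ prod.snd)) :
      Y ⨯ (Z ⨯ (X ⨯ W)) ⟶ Z ⨯ (Y ⨯ (X ⨯ W))) ≫ prod.snd ≫ cl X Y W = prod.map (𝟙 Y) (cl X Z W) ≫ cl X Y Z := by
    unfold cl
    ext <;> simp
  have e2 : (prod.lift (prod.snd ≫ prod.fst) (prod.lift prod.fst (prod.snd ≫ prod.snd)) :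
      Y ⨯ (Z ⨯ (X ⨯ W)) ⟶ Z ⨯ (Y ⨯ (X ⨯ W))) ≫ prod.map (𝟙 Z) (cr X Y W) ≫ cl Y Z W =
      prod.map (𝟙 Y) (cl X Z W) ≫ cr X Y Z := by
    unfold cl cr
    ext <;> simp
  have e3 : (prod.lift (prod.snd ≫ prod.fst) (prod.lift prod.fst (prod.snd ≫ prod.snd)) :
      Y ⨯ (Z ⨯ (X ⨯ W)) ⟶ Z ⨯ (Y ⨯ (X ⨯ W))) ≫ prod.map (𝟙 Z) (cr X Y W) ≫ cr Y Z W = prod.snd ≫ cr X Z W := by
    unfold cr
    ext <;> simp
  rw [e1, e2, e3, mul_assoc]

/-- base change in the first variable -/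
lemma pull_cl_push (hF : K.RFunctor) (hB : K.RBase) {X X' Y Z : 𝒱} (g : X ⟶ X') (a : S.A (X ⨯ Y)) :
    S.pull (cl X' Y Z) (K.push (prod.map g (𝟙 Y)) a) =
      K.push (prod.map (𝟙 Y) (prod.map g (𝟙 Z))) (S.pull (cl X Y Z) a) := by
  have h1 := hB.push_fst (prod.map g (𝟙 Y)) Z a
  let t : ∀ X : 𝒱, Y ⨯ (X ⨯ Z) ⟶ (X ⨯ Y) ⨯ Z := fun X => prod.lift (cl X Y Z) (prod.snd ≫ prod.snd)
  let t' : ∀ X : 𝒱, (X ⨯ Y) ⨯ Z ⟶ Y ⨯ (X ⨯ Z) := fun X =>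
    prod.lift (prod.fst ≫ prod.snd) (prod.lift (prod.fst ≫ prod.fst) prod.snd)
  have htt' : ∀ X, t X ≫ t' X = 𝟙 _ := by
    intro X
    simp only [t, t', cl]
    ext <;> simp
  have ht't : ∀ X, t' X ≫ t X = 𝟙 _ := by
    intro X
    simp only [t, t', cl]
    ext <;> simp
  have h2 := congrArg (S.pull (t X')) h1
  rw [pull_inv hF (t' X') (t X') (ht't _) (htt' _), ← hF.push_comp] at h2
  have h3 : prod.map (prod.map g (𝟙 Y)) (𝟙 Z) ≫ t' X' = t' X ≫ prod.map (𝟙 Y) (prod.map g (𝟙 Z)) := by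
    simp only [t']
    ext <;> simp
  rw [h3, hF.push_comp, ← pull_inv hF (t' X) (t X) (ht't _) (htt' _), ← S.pull_comp, ← S.pull_comp] at h2
  have h4 : t X ≫ prod.fst = cl X Y Z := prod.lift_fst _ _
  have h5 : t X' ≫ prod.fst = cl X' Y Z := prod.lift_fst _ _
  rw [h4, h5] at h2
  exact h2.symm

/-- push-forward in the first variable -/
lemma comp_push (hF : K.RFunctor) (hB : K.RBase) {X X' Y Z : 𝒱} (g : X ⟶ X') (a : S.A (X ⨯ Y)) (b : S.A (Y ⨯ Z)) :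
    comp K (K.push (prod.map g (𝟙 Y)) a) b = K.push (prod.map g (𝟙 Z)) (comp K a b) := by
  unfold comp
  have h1 : S.pull (cr X Y Z) b = S.pull (prod.map (𝟙 Y) (prod.map g (𝟙 Z))) (S.pull (cr X' Y Z) b) := by
    rw [← S.pull_comp]
    congr 2
    unfold cr
    ext <;> simp
  rw [pull_cl_push hF hB, h1, mul_comm, ← hF.projection, mul_comm, int_def, int_def, ← hF.push_comp, ← hF.push_comp,
    prod.map_snd]

/-- composition with a graph -/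
lemma comp_graph_left (hF : K.RFunctor) (hB : K.RBase) {X Y Z : 𝒱} (f : X ⟶ Y) (b : S.A (Y ⨯ Z)) :
    comp K (K.graph f) b = S.pull (prod.map f (𝟙 Z)) b := by
  unfold comp
  have h1 : S.pull (cl X Y Z) (K.graph f) = dia K (prod.fst ≫ f : X ⨯ Z ⟶ Y) := by
    have h2 : S.pull (cl X Y Z) (K.graph f) = S.pull (cl X Y Z ≫ prod.map f (𝟙 Y)) (K.graph (𝟙 Y)) := by
      rw [S.pull_comp, hB.pull_graph, Category.comp_id]
    have h3 : cl X Y Z ≫ prod.map f (𝟙 Y) = prod.map (𝟙 Y) (prod.fst ≫ f : X ⨯ Z ⟶ Y) ≫ sw Y Y := by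
      unfold cl sw
      ext <;> simp
    have h4 : S.pull (sw Y Y) (K.graph (𝟙 Y)) = K.graph (𝟙 Y) := by
      rw [pull_inv hF (sw Y Y) (sw Y Y) (sw_sw _ _) (sw_sw _ _)]
      unfold PushForward.graph
      rw [← hF.push_comp, lift_sw]
    rw [h2, h3, S.pull_comp, h4]
    rfl
  rw [h1, int_dia hF hB, ← S.pull_comp]
  congr 2
  unfold sec cr
  ext <;> simp

/-- the dimension of a composition -/
lemma comp_mem_cycles (hF : K.RFunctor) (hV : K.RVarieties) {X Y Z : 𝒱} {a : S.A (X ⨯ Y)} {b : S.A (Y ⨯ Z)}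
    {i j d : ℕ} (ha : a ∈ S.gr (X ⨯ Y) i) (hb : b ∈ S.gr (Y ⨯ Z) j) (hd : i + j + d = S.dim X + S.dim Y + S.dim Z) :
    comp K a b ∈ cycles S (X ⨯ Z) d := by
  refine hF.push_cycles _ _ _ ((mem_cycles_iff (i := i + j) ?_).mpr
    (S.mul_mem (hV.pull_gr _ _ _ ha) (hV.pull_gr _ _ _ hb)))
  rw [S.dim_prod, S.dim_prod]
  omega

lemma comp_eq_zero (hF : K.RFunctor) (hV : K.RVarieties) {X Y Z : 𝒱} {a : S.A (X ⨯ Y)} {b : S.A (Y ⨯ Z)}
    {i j : ℕ} (ha : a ∈ S.gr (X ⨯ Y) i) (hb : b ∈ S.gr (Y ⨯ Z) j) (hd : S.dim X + S.dim Y + S.dim Z < i + j) :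
    comp K a b = 0 := by
  unfold comp
  rw [hV.gr_eq_zero (i + j) _ _ (S.mul_mem (hV.pull_gr _ _ _ ha) (hV.pull_gr _ _ _ hb)), map_zero]
  rw [S.dim_prod, S.dim_prod]
  omega

end Pool.Agent.Helper88.SP
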