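import Pool.Agent.Helper88.SQ.Sn
import Pool.Agent.Helper88.SP.Auto

/-!
# The modified small diagonal of a curve
-/

set_option autoImplicit false
set_option linter.unusedVariables false

open CategoryTheory CategoryTheory.Limits Pool.Agent.Helper81.Smash Equiv

namespace Pool.Agent.Helper88.SP

attribute [local simp] prod.lift_fst prod.lift_snd prod.lift_fst_assoc prod.lift_snd_assoc

universe u v w

variable {𝒱 : Type u} [Category.{v} 𝒱] [HasFiniteProducts 𝒱] {S : HomCycles.{u, v, w} 𝒱} {K : PushForward S}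

/-- `π(x, y)` -/
noncomputable def odd2 (K : PushForward S) {C W : 𝒱} (p : ⊤_ 𝒱 ⟶ C) (x y : W ⟶ C) : S.A W :=
  S.pull (prod.lift x y) (K.oddPart p)

/-- `π(u, x)` on `C × W` -/
noncomputable def odd (K : PushForward S) {C W : 𝒱} (p : ⊤_ 𝒱 ⟶ C) (x : W ⟶ C) : S.A (C ⨯ W) :=
  S.pull (prod.map (𝟙 C) x) (K.oddPart p)

lemma odd_def {C W : 𝒱} (p : ⊤_ 𝒱 ⟶ C) (x : W ⟶ C) : odd K p x =
    dia K x - S.pull prod.fst (K.pt p) - S.pull prod.snd (S.pull x (K.pt p)) := by
  unfold odd dia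
  rw [oddPart_def, map_sub, map_sub, ← S.pull_comp, ← S.pull_comp, ← S.pull_comp, prod.map_fst, prod.map_snd,
    Category.comp_id]

lemma int_odd (hF : K.RFunctor) (hB : K.RBase) {C W : 𝒱} (p : ⊤_ 𝒱 ⟶ C) (x : W ⟶ C) (b : S.A (C ⨯ W)) :
    int K (odd K p x * b) = S.pull (sec x) b - S.pull (sec (cst W p)) b - S.pull x (K.pt p) * int K b := by
  rw [odd_def, sub_mul, sub_mul, map_sub, map_sub, int_dia hF hB, int_pt hF hB, int_mul' hF]

lemma pull_sec_odd {C W : 𝒱} (p : ⊤_ 𝒱 ⟶ C) (x y : W ⟶ C) : S.pull (sec x) (odd K p y) = odd2 K p x y := by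
  unfold odd odd2 sec
  rw [← S.pull_comp]
  congr 2
  simp

lemma pull_pt_eq_zero (hF : K.RFunctor) (hV : K.RVarieties) {C : 𝒱} (hC : S.dim C = 1) (s t : ⊤_ 𝒱 ⟶ C) :
    S.pull s (K.pt t) = 0 :=
  hV.gr_eq_zero 1 _ (by rw [hV.dim_point]; omega)
    (hV.pull_gr _ _ _ ((mem_cycles_iff (d := 0) (by omega)).mp (pt_mem hF hV t)))

lemma odd2_cst (hF : K.RFunctor) (hB : K.RBase) (hV : K.RVarieties) {C W : 𝒱} (hC : S.dim C = 1)
    (p : ⊤_ 𝒱 ⟶ C) (x : W ⟶ C) : odd2 K p (cst W p) x = 0 := by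
  have h1 : prod.lift (cst W p) x = x ≫ prod.lift (terminal.from C ≫ p) (𝟙 C) := by
    apply Limits.prod.hom_ext
    · rw [Category.assoc, prod.lift_fst, prod.lift_fst]
      exact (comp_cst x p).symm
    · rw [Category.assoc, prod.lift_snd, prod.lift_snd, Category.comp_id]
  have h5 : S.pull (prod.lift (terminal.from C ≫ p) (𝟙 C)) (K.oddPart p) = 0 := by
    rw [oddPart_def, map_sub, map_sub, pull_point_graph hF hB, Category.comp_id, ← S.pull_comp, ← S.pull_comp,
      prod.lift_fst, prod.lift_snd, S.pull_id, S.pull_comp, pull_pt_eq_zero hF hV hC, map_zero, sub_zero, sub_self]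
  unfold odd2
  rw [h1, S.pull_comp, h5, map_zero]

lemma int_odd_one (hF : K.RFunctor) (hB : K.RBase) (hD : K.RDegrees) {C W : 𝒱} (hC : S.dim C = 1)
    (p : ⊤_ 𝒱 ⟶ C) (x : W ⟶ C) : int K (odd K p x) = 0 := by
  have h := int_odd hF hB p x 1
  rw [mul_one, map_one, map_one, sub_self, int_one hD (by omega), mul_zero, sub_zero] at h
  exact h

lemma int_odd_odd (hF : K.RFunctor) (hB : K.RBase) (hD : K.RDegrees) (hV : K.RVarieties) {C W : 𝒱}
    (hC : S.dim C = 1) (p : ⊤_ 𝒱 ⟶ C) (x y : W ⟶ C) : int K (odd K p x * odd K p y) = odd2 K p x y := by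
  rw [int_odd hF hB, pull_sec_odd, pull_sec_odd, odd2_cst hF hB hV hC, int_odd_one hF hB hD hC, mul_zero, sub_zero,
    sub_zero]

/-- the modified small diagonal -/
lemma int_odd_odd_odd (hF : K.RFunctor) (hB : K.RBase) (hD : K.RDegrees) (hV : K.RVarieties) {C W : 𝒱}
    (hC : S.dim C = 1) (p : ⊤_ 𝒱 ⟶ C) (x y z : W ⟶ C) : int K (odd K p x * (odd K p y * odd K p z)) =
      odd2 K p x y * odd2 K p x z - S.pull x (K.pt p) * odd2 K p y z := by
  rw [int_odd hF hB, map_mul, map_mul, pull_sec_odd, pull_sec_odd, pull_sec_odd, odd2_cst hF hB hV hC, zero_mul,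
    int_odd_odd hF hB hD hV hC, sub_zero]

/-- its smash-nilpotence -/
theorem odd_smash (hF : K.RFunctor) {C W : 𝒱} (p : ⊤_ 𝒱 ⟶ C) (x y z : W ⟶ C) {a m : ℕ} (ha : 0 < a)
    (hm : (a - 1) * ((a - 1) * (a - 1)) < m) (hp : (matrixOf (K.oddPart p) a).permanent = 0) :
    S.smash (int K (odd K p x * (odd K p y * odd K p z))) m = 0 := by
  rw [int_def, ← hF.push_smash]
  let M : (W ⟶ C) → Fin m → Fin m → S.A (power (C ⨯ W) m) := fun x k l =>
    S.pull (prod.lift (coord (C ⨯ W) k ≫ prod.fst) ((coord (C ⨯ W) l ≫ prod.snd) ≫ x)) (K.oddPart p)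
  have h0 : ∀ x : W ⟶ C, S.smash (odd K p x) m = ∏ k, M x k k := by
    intro x
    rw [smash_def]
    refine Finset.prod_congr rfl fun k _ => ?_
    unfold odd
    rw [← S.pull_comp]
    congr 2
    ext <;> simp
  rw [smash_mul, smash_mul, h0, h0, h0, ← mul_assoc]
  have hMκ : ∀ (x : W ⟶ C) (κ : Perm (Fin m)) (k l : Fin m), S.pull (auto C W κ) (M x k l) = M x (κ k) l := by
    intro x κ k l
    rw [← S.pull_comp]
    congr 2
    apply Limits.prod.hom_ext
    · rw [Category.assoc, prod.lift_fst, prod.lift_fst, auto_coord_fst]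
    · rw [Category.assoc, prod.lift_snd, prod.lift_snd, ← Category.assoc, auto_coord_snd]
  refine kimura_odd ha hm (M x) (M y) (M z) (K.push (powerMap (prod.snd : C ⨯ W ⟶ W) m)).toAddMonoidHom ?_ ?_ ?_ ?_
  · intro ρ σ τ κ
    have h2 : S.pull (auto C W κ) ((∏ k, M x k ((ρ * κ) k)) * (∏ k, M y k ((σ * κ) k)) * ∏ k, M z k ((τ * κ) k)) =
        (∏ k, M x k (ρ k)) * (∏ k, M y k (σ k)) * ∏ k, M z k (τ k) := by
      rw [map_mul, map_mul, map_prod, map_prod, map_prod]
      congr 1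
      · congr 1
        · rw [Finset.prod_congr rfl fun k _ => hMκ x κ k _]
          exact Equiv.prod_comp κ fun k => M x k (ρ k)
        · rw [Finset.prod_congr rfl fun k _ => hMκ y κ k _]
          exact Equiv.prod_comp κ fun k => M y k (σ k)
      · rw [Finset.prod_congr rfl fun k _ => hMκ z κ k _]
        exact Equiv.prod_comp κ fun k => M z k (τ k)
    have h3 := push_auto hF κ ((∏ k, M x k ((ρ * κ) k)) * (∏ k, M y k ((σ * κ) k)) * ∏ k, M z k ((τ * κ) k))
    rw [h2] at h3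
    exact h3
  all_goals
    intro u v
    exact permanent_entry hp (fun i => coord (C ⨯ W) (u i) ≫ prod.fst) (fun j => (coord (C ⨯ W) (v j) ≫ prod.snd) ≫ _)

/-- the modified small diagonal is smash-nilpotent -/
theorem gross_sn (hK : K.RStandard) (hO : K.CurvesOdd) {C W : 𝒱} (hC : S.dim C = 1) (p : ⊤_ 𝒱 ⟶ C)
    (x y z : W ⟶ C) :
    odd2 K p x y * odd2 K p x z - S.pull x (K.pt p) * odd2 K p y z ∈ Sn S W := by
  rw [← int_odd_odd_odd hK.isFunctor hK.baseChange hK.degrees hK.varieties hC]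
  obtain ⟨a, ha⟩ := hO C p hC
  rcases Nat.eq_zero_or_pos a with rfl | h0
  · -- all rings are zero
    have h1 : (1 : S.A (power C 0 ⨯ power C 0)) = 0 := by
      rw [← ha]
      simp [Matrix.permanent]
    refine ⟨1, le_rfl, ?_⟩
    have h2 : ∀ {X : 𝒱} (a : S.A X), a = 0 := by
      intro X a
      have h3 := congrArg (S.pull (prod.lift (liftP (fun i : Fin 0 => i.elim0)) (liftP (fun i : Fin 0 => i.elim0)) :
        X ⟶ power C 0 ⨯ power C 0)) h1
      rw [map_one, map_zero] at h3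
      rw [← one_mul a, h3, zero_mul]
    exact h2 _
  · exact ⟨(a - 1) * ((a - 1) * (a - 1)) + 1, by omega,
      odd_smash hK.isFunctor p x y z h0 (Nat.lt_succ_self _) ha⟩

end Pool.Agent.Helper88.SP
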