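import Pool.Agent.Helper88.SQ.Albanese

/-!
# Reduction to surfaces
-/

set_option autoImplicit false
set_option linter.unusedVariables false

open CategoryTheory CategoryTheory.Limits Pool.Agent.Helper81.Smash Equiv

namespace Pool.Agent.Helper88.SP

attribute [local simp] prod.lift_fst prod.lift_snd prod.lift_fst_assoc prod.lift_snd_assoc

universe u v w

variable {𝒱 : Type u} [Category.{v} 𝒱] [HasFiniteProducts 𝒱] {S : HomCycles.{u, v, w} 𝒱} {K : PushForward S}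

/-- one-dimensional cycles come from surfaces -/
lemma exists_surface (hK : K.RStandard) (hL : K.Lefschetz) {X Y : 𝒱} {z : S.A (X ⨯ Y)}
    (hz : z ∈ cycles S (X ⨯ Y) 1) : ∃ (A : 𝒱) (ι : A ⟶ X) (w : S.A (A ⨯ Y)), S.dim A = 2 ∧ K.InjectiveOnH₁ ι ∧
      w ∈ cycles S (A ⨯ Y) 1 ∧ K.push (prod.map ι (𝟙 Y)) w = z := by
  have hF := hK.isFunctor
  have h1 := hK.varieties.oneCycles (X ⨯ Y) hz
  rw [Submodule.mem_span_set'] at h1
  obtain ⟨n, q, c, hc⟩ := h1
  choose D F hD hF' using fun i => (c i).2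
  obtain ⟨A, ι, g, hA, hι, hg⟩ := hL X n D (fun i => F i ≫ prod.fst) hD
  refine ⟨A, ι, ∑ i, q i • K.push (prod.lift (g i) (F i ≫ prod.snd)) 1, hA, hι, ?_, ?_⟩
  · exact Submodule.sum_mem _ fun i _ => Submodule.smul_mem _ _ (hF.push_cycles _ _ _ (one_mem_cycles (hD i)))
  · rw [← hc, map_sum]
    refine Finset.sum_congr rfl fun i _ => ?_
    rw [map_smul, hF' i, ← hF.push_comp, prod.lift_map, hg, Category.comp_id]
    congr 3
    ext <;> simp

/-- Voevodsky's conjecture for 1-cycles on `X × Y` follows from the case where `X` is a surface. -/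
theorem of_surfaces (hK : K.RStandard) (hL : K.Lefschetz) {X Y : 𝒱} (hX : Voevodsky S X 1)
    (hY : ∀ A : 𝒱, S.dim A = 2 → Voevodsky S (A ⨯ Y) 1) : Voevodsky S (X ⨯ Y) 1 := by
  have hF := hK.isFunctor
  have hB := hK.baseChange
  have hV := hK.varieties
  obtain ⟨y⟩ := hV.points Y
  intro z hz hz'
  obtain ⟨A, ι, w, hA, hι, hw, hwz⟩ := exists_surface hK hL hz
  have h1 : w - ext (K.push prod.fst w) (K.pt y) ∈ S.hom (A ⨯ Y) := hι Y y w hw (by
    change K.push (prod.map ι (𝟙 Y)) w ∈ S.hom (X ⨯ Y)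
    rw [hwz]
    exact hz')
  have h2 : w - ext (K.push prod.fst w) (K.pt y) ∈ cycles S (A ⨯ Y) 1 :=
    Submodule.sub_mem _ hw (ext_mem_cycles (d := 1) (e := 0) hV (hF.push_cycles _ _ _ hw) (pt_mem hF hV y))
  have h3 := sn_push hF (prod.map ι (𝟙 Y)) (voev_sn (hY A hA) h2 h1)
  rw [map_sub, hwz, push_ext hF hB, ← hF.push_comp] at h3
  have h4 : K.push (prod.fst ≫ ι) w = K.push prod.fst z := by
    rw [← hwz, ← hF.push_comp, prod.map_fst]
  rw [h4] at h3
  have h5 : ext (K.push prod.fst z) (K.pt y) ∈ Sn S (X ⨯ Y) :=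
    sn_ext_left (voev_sn hX (hF.push_cycles _ _ _ hz) (hF.push_hom _ _ hz')) _
  have h6 : z ∈ Sn S (X ⨯ Y) := by
    have := Submodule.add_mem _ h3 h5
    rwa [sub_add_cancel] at this
  exact h6

/-- the Künneth theorem for two factors -/
theorem kunneth_two (hK : K.RStandard) (hL : K.Lefschetz)
    (hS : ∀ A B : 𝒱, S.dim A = 2 → S.dim B = 2 → Voevodsky S (A ⨯ B) 1) (X Y : 𝒱) :
    Voevodsky S (X ⨯ Y) 1 ↔ Voevodsky S X 1 ∧ Voevodsky S Y 1 := by
  refine ⟨of_prod hK, fun ⟨hX, hY⟩ => ?_⟩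
  refine of_surfaces hK hL hX fun A hA => voev_iso hK.isFunctor (swIso Y A) ?_
  exact of_surfaces hK hL hY fun B hB => hS B A hB hA

/-- **the Künneth theorem** -/
theorem kunneth_many (hK : K.RStandard) (hL : K.Lefschetz)
    (hS : ∀ A B : 𝒱, S.dim A = 2 → S.dim B = 2 → Voevodsky S (A ⨯ B) 1) : ∀ (n : ℕ) (X : Fin n → 𝒱),
    0 < n → (Voevodsky S (∏ᶜ X) 1 ↔ ∀ i, Voevodsky S (X i) 1) := by
  intro n
  induction n with
  | zero => exact fun _ h => absurd h (lt_irrefl 0)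
  | succ n ih =>
    intro X _
    have h1 : Voevodsky S (∏ᶜ X) 1 ↔ Voevodsky S (X 0 ⨯ ∏ᶜ fun i : Fin n => X i.succ) 1 :=
      ⟨voev_iso hK.isFunctor (isoSucc X).symm, voev_iso hK.isFunctor (isoSucc X)⟩
    rw [h1, Fin.forall_fin_succ]
    rcases Nat.eq_zero_or_pos n with rfl | hn
    · have h2 : Voevodsky S (X 0 ⨯ ∏ᶜ fun i : Fin 0 => X i.succ) 1 ↔ Voevodsky S (X 0) 1 :=
        ⟨voev_iso hK.isFunctor (isoEmpty (X 0) _).symm, voev_iso hK.isFunctor (isoEmpty (X 0) _)⟩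
      rw [h2]
      exact ⟨fun h => ⟨h, fun i => i.elim0⟩, fun h => h.1⟩
    · rw [kunneth_two hK hL hS, ih _ hn]

/-- products of two surfaces -/
theorem surfaces_of_curves (hK : K.RStandard) (hO : K.CurvesOdd) (hAlb : K.Albanese)
    (hC : ∀ A C : 𝒱, S.dim A = 2 → S.dim C = 1 → Voevodsky S (A ⨯ C) 1) (A B : 𝒱) (hA : S.dim A = 2)
    (hB : S.dim B = 2) : Voevodsky S (A ⨯ B) 1 := by
  obtain ⟨C, hBC⟩ := hAlb B hB
  exact transfer_albanese hK hO hBC (fun D hD => voev_iso hK.isFunctor (swIso B D) (hC B D hB hD))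
    (hC A C hA hBC.choose_spec.choose_spec.1)

/-- **the criterion** -/
theorem multiplicative_iff (hK : K.RStandard) (hO : K.CurvesOdd) (hS : ∀ X : 𝒱, S.dim X = 2 → Voevodsky S X 1)
    (hL : K.Lefschetz) (hAlb : K.Albanese) :
    (PushForward.Multiplicative S ↔ ∀ A : 𝒱, S.dim A = 2 → PushForward.OverCurves S A) ∧
    (PushForward.Multiplicative S ↔ ∀ A : 𝒱, S.dim A = 2 → K.ResiduesNilpotent A) := by
  have h1 : PushForward.Multiplicative S → ∀ A : 𝒱, S.dim A = 2 → PushForward.OverCurves S A := by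
    intro h A hA2 C hC
    have h2 := (h 2 ![A, C] (by omega)).mpr (by
      intro i
      fin_cases i
      · exact hS A hA2
      · exact (of_prod hK (hS (C ⨯ C) (by rw [S.dim_prod]; omega))).1)
    exact (pairs hK hO le_rfl ![A, C]).mp h2 0 1 (by decide)
  have h2 : (∀ A : 𝒱, S.dim A = 2 → PushForward.OverCurves S A) → ∀ A : 𝒱, S.dim A = 2 →
      K.ResiduesNilpotent A := by
    intro h A hA2
    obtain ⟨C, ρ, τ, hC⟩ := hAlb A hA2
    exact ⟨C, ρ, τ, hC, fun D p f hD => voev_iso hK.isFunctor (swIso A D) (h A hA2 D hD) _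
      (residue_mem hK hC p f hD) (hC.2.2.2 D p f hD)⟩
  have h3 : (∀ A : 𝒱, S.dim A = 2 → K.ResiduesNilpotent A) → ∀ A : 𝒱, S.dim A = 2 →
      PushForward.OverCurves S A := by
    intro h A hA2 D hD
    obtain ⟨C, ρ, τ, hC, hR⟩ := h A hA2
    exact voev_iso hK.isFunctor (swIso D A) (transfer_residue hK hO hC (hS A hA2) hR
      (hS _ (by rw [S.dim_prod]; have := hC.1; omega)))
  have h4 : (∀ A : 𝒱, S.dim A = 2 → PushForward.OverCurves S A) → PushForward.Multiplicative S := fun h n X hn =>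
    kunneth_many hK hL (surfaces_of_curves hK hO hAlb fun A C hA2 hC => h A hA2 C hC) n X hn
  exact ⟨⟨h1, h4⟩, ⟨fun h => h2 (h1 h), fun h => h4 (h3 h)⟩⟩

end Pool.Agent.Helper88.SP
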