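import Pool.Agent.Helper88.SQ.Three

/-!
# Voevodsky's conjecture for one-dimensional cycles on products of several varieties
-/

set_option autoImplicit false
set_option linter.unusedVariables false

open CategoryTheory CategoryTheory.Limits Pool.Agent.Helper81.Smash Equiv

namespace Pool.Agent.Helper88.SP

attribute [local simp] prod.lift_fst prod.lift_snd prod.lift_fst_assoc prod.lift_snd_assoc

universe u v w

variable {𝒱 : Type u} [Category.{v} 𝒱] [HasFiniteProducts 𝒱] {S : HomCycles.{u, v, w} 𝒱} {K : PushForward S}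

lemma voev_retract (hF : K.RFunctor) {X Y : 𝒱} (s : X ⟶ Y) (r : Y ⟶ X) (hsr : s ≫ r = 𝟙 X) {d : ℕ}
    (h : Voevodsky S Y d) : Voevodsky S X d := by
  intro z hz hz'
  have h1 : z = K.push r (K.push s z) := by
    rw [← hF.push_comp, hsr, hF.push_id]
  have h3 : K.push s z ∈ Sn S Y := h _ (hF.push_cycles _ _ _ hz) (hF.push_hom _ _ hz')
  rw [h1]
  exact sn_push hF _ h3

/-- a product with an empty product -/
noncomputable def isoEmpty (Y : 𝒱) (X : Fin 0 → 𝒱) : Y ≅ Y ⨯ ∏ᶜ X where
  hom := prod.lift (𝟙 Y) (Limits.Pi.lift fun i => i.elim0)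
  inv := prod.fst
  hom_inv_id := prod.lift_fst _ _
  inv_hom_id := by
    apply Limits.prod.hom_ext
    · simp
    · refine Limits.Pi.hom_ext _ _ fun i => i.elim0

/-- splitting off the first factor -/
noncomputable def isoSucc {n : ℕ} (X : Fin (n + 1) → 𝒱) : X 0 ⨯ ∏ᶜ (fun i : Fin n => X i.succ) ≅ ∏ᶜ X where
  hom := Limits.Pi.lift fun i => Fin.cases (motive := fun i => X 0 ⨯ ∏ᶜ (fun i : Fin n => X i.succ) ⟶ X i) prod.fst
    (fun j => prod.snd ≫ Limits.Pi.π (fun i : Fin n => X i.succ) j) i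
  inv := prod.lift (Limits.Pi.π X 0) (Limits.Pi.lift fun i => Limits.Pi.π X i.succ)
  hom_inv_id := by
    apply Limits.prod.hom_ext
    · rw [Category.assoc, prod.lift_fst, Limits.limit.lift_π, Category.id_comp]
      rfl
    · rw [Category.assoc, prod.lift_snd, Category.id_comp]
      refine Limits.Pi.hom_ext _ _ fun i => ?_
      rw [Category.assoc, Limits.limit.lift_π, Limits.Fan.mk_π_app]
      exact Limits.limit.lift_π _ _
  inv_hom_id := by
    refine Limits.Pi.hom_ext _ _ fun i => ?_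
    rw [Category.assoc, Limits.limit.lift_π, Category.id_comp]
    refine Fin.cases ?_ (fun j => ?_) i
    · exact prod.lift_fst _ _
    · change prod.lift _ _ ≫ prod.snd ≫ _ = _
      rw [← Category.assoc, prod.lift_snd]
      exact Limits.limit.lift_π _ _

noncomputable def isoProd {X Y Z : 𝒱} (e : Y ≅ Z) : X ⨯ Y ≅ X ⨯ Z where
  hom := prod.map (𝟙 X) e.hom
  inv := prod.map (𝟙 X) e.inv
  hom_inv_id := by
    rw [prod.map_map, Category.id_comp, e.hom_inv_id, prod.map_id_id]
  inv_hom_id := by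
    rw [prod.map_map, Category.id_comp, e.inv_hom_id, prod.map_id_id]

theorem many (hK : K.RStandard) (hO : K.CurvesOdd) : ∀ (n : ℕ) (X : Fin n → 𝒱) (Y : 𝒱), Voevodsky S Y 1 →
    (∀ i, Voevodsky S (Y ⨯ X i) 1) → (∀ i j, i < j → Voevodsky S (X i ⨯ X j) 1) → Voevodsky S (Y ⨯ ∏ᶜ X) 1 := by
  intro n
  induction n with
  | zero =>
    intro X Y hY _ _
    exact voev_iso hK.isFunctor (isoEmpty Y X) hY
  | succ n ih =>
    intro X Y hY hYX hXX
    refine voev_iso hK.isFunctor (isoProd (isoSucc X)) ?_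
    refine three hK hO (hYX 0) (ih _ _ hY (fun i => hYX i.succ) fun i j hij =>
      hXX i.succ j.succ (Fin.succ_lt_succ_iff.mpr hij)) ?_
    exact ih _ _ (of_prod hK (hYX 0)).2 (fun i => hXX 0 i.succ (Fin.succ_pos i)) fun i j hij =>
      hXX i.succ j.succ (Fin.succ_lt_succ_iff.mpr hij)

/-- **Voevodsky's conjecture for 1-cycles holds on a product if and only if it holds on all products of two of
the factors.** -/
theorem pairs (hK : K.RStandard) (hO : K.CurvesOdd) {n : ℕ} (hn : 2 ≤ n) (X : Fin n → 𝒱) :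
    Voevodsky S (∏ᶜ X) 1 ↔ ∀ i j, i < j → Voevodsky S (X i ⨯ X j) 1 := by
  classical
  constructor
  · intro h i j hij
    choose x hx using fun i => (⟨(hK.varieties.points (X i)).some, trivial⟩ : ∃ x : ⊤_ 𝒱 ⟶ X i, True)
    let s : X i ⨯ X j ⟶ ∏ᶜ X := Limits.Pi.lift fun k =>
      if hi : k = i then prod.fst ≫ eqToHom (by rw [hi]) else
      if hj : k = j then prod.snd ≫ eqToHom (by rw [hj]) else cst _ (x k)
    refine voev_retract hK.isFunctor s (prod.lift (Limits.Pi.π X i) (Limits.Pi.π X j)) ?_ h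
    apply Limits.prod.hom_ext
    · rw [Category.assoc, prod.lift_fst, Limits.limit.lift_π, Limits.Fan.mk_π_app, Category.id_comp]
      simp
    · rw [Category.assoc, prod.lift_snd, Limits.limit.lift_π, Limits.Fan.mk_π_app, Category.id_comp]
      have hji : j ≠ i := (ne_of_lt hij).symm
      simp [hji]
  · intro h
    obtain ⟨m, rfl⟩ : ∃ m, n = m + 2 := ⟨n - 2, by omega⟩
    refine voev_iso hK.isFunctor (isoSucc X) ?_
    refine many hK hO _ _ _ (of_prod hK (h 0 1 (by simp))).1 (fun i => h 0 i.succ (Fin.succ_pos i)) fun i j hij =>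
      h i.succ j.succ (Fin.succ_lt_succ_iff.mpr hij)

end Pool.Agent.Helper88.SP
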