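import Pool.Agent.Helper88.SP.Perm

/-!
# Products of three odd objects of finite dimension
-/

set_option autoImplicit false
set_option linter.unusedVariables false

open Equiv

namespace Pool.Agent.Helper88.SP

variable {V : Type*} [AddCommGroup V] [Module ℚ V] {m n : ℕ}

lemma permExt_trans {a : ℕ} (ι : Fin n ↪ Fin m) (ι' : Fin a ↪ Fin n) (κ : Perm (Fin a)) :
    permExt ι (permExt ι' κ) = permExt (ι'.trans ι) κ := by
  refine Equiv.ext fun x => ?_
  by_cases hx : x ∈ Set.range ι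
  · obtain ⟨i, rfl⟩ := hx
    rw [permExt_apply]
    by_cases hi : i ∈ Set.range ι'
    · obtain ⟨j, rfl⟩ := hi
      rw [permExt_apply]
      exact (permExt_apply (ι'.trans ι) κ j).symm
    · rw [permExt_apply_of_notMem ι' _ i hi, permExt_apply_of_notMem (ι'.trans ι)]
      rintro ⟨j, hj⟩
      exact hi ⟨j, ι.injective hj⟩
  · rw [permExt_apply_of_notMem ι _ x hx, permExt_apply_of_notMem (ι'.trans ι)]
    rintro ⟨j, hj⟩
    exact hx ⟨ι' j, hj⟩

lemma sign_permExt {a : ℕ} (ι : Fin a ↪ Fin m) (κ : Perm (Fin a)) :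
    Perm.sign (permExt ι κ) = Perm.sign κ := by
  induction κ using Perm.swap_induction_on with
  | one => rw [permExt_one, Perm.sign_one, Perm.sign_one]
  | swap_mul κ x y hxy ih =>
    rw [permExt_mul, Perm.sign_mul, Perm.sign_mul, ih, permExt_swap, Perm.sign_swap hxy,
      Perm.sign_swap fun h => hxy (ι.injective h)]

/-- The product of two odd objects is even: a function `G` of two permutations all of whose symmetrizations in
`a` letters (in each variable) vanish has vanishing diagonal antisymmetrizations in more than `(a - 1) ^ 2`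
letters. -/
theorem alt_of_sym {a : ℕ} (ha : 0 < a) (hn : (a - 1) * (a - 1) < n) (G : Perm (Fin m) → Perm (Fin m) → V)
    (h1 : ∀ (ι : Fin a ↪ Fin m) (ρ σ : Perm (Fin m)), ∑ κ : Perm (Fin a), G (ρ * permExt ι κ) σ = 0)
    (h2 : ∀ (ι : Fin a ↪ Fin m) (ρ σ : Perm (Fin m)), ∑ κ : Perm (Fin a), G ρ (σ * permExt ι κ) = 0)
    (ι : Fin n ↪ Fin m) (ρ σ : Perm (Fin m)) :
    ∑ κ : Perm (Fin n), (Perm.sign κ : ℤ) • G (ρ * permExt ι κ) (σ * permExt ι κ) = 0 := by
  have key := fun_eq_zero (V := V) (m := n) a (a - 1) hn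
    (fun l => ∑ κ : Perm (Fin n), (Perm.sign κ : ℤ) • G (ρ * permExt ι κ) (σ * permExt ι (κ * l))) ?_ ?_ 1
  · simpa using key
  · intro ι' l
    rw [Finset.sum_comm]
    refine Finset.sum_eq_zero fun κ _ => ?_
    rw [← Finset.smul_sum]
    have h3 : ∀ μ : Perm (Fin a), σ * permExt ι (κ * (l * permExt ι' μ)) =
        (σ * permExt ι (κ * l)) * permExt (ι'.trans ι) μ := by
      intro μ
      rw [← mul_assoc, permExt_mul, permExt_trans, mul_assoc]
    have h4 := h2 (ι'.trans ι) (ρ * permExt ι κ) (σ * permExt ι (κ * l))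
    rw [Finset.sum_congr rfl fun μ _ => by rw [h3 μ], h4, smul_zero]
  · have ha1 : a - 1 + 1 = a := by omega
    rw [ha1]
    intro ι' l
    -- substitute `κ' = κ * (l μ l⁻¹)`
    have h5 : ∀ μ : Perm (Fin a), (Perm.sign μ : ℤ) • ∑ κ : Perm (Fin n),
        (Perm.sign κ : ℤ) • G (ρ * permExt ι κ) (σ * permExt ι (κ * (l * permExt ι' μ))) =
        ∑ κ : Perm (Fin n), (Perm.sign κ : ℤ) •
          G ((ρ * permExt ι κ) * permExt ((ι'.trans l.toEmbedding).trans ι) μ⁻¹) (σ * permExt ι (κ * l)) := by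
      intro μ
      rw [Finset.smul_sum]
      refine Finset.sum_nbij' (fun κ => κ * (l * permExt ι' μ * l⁻¹)) (fun κ => κ * (l * permExt ι' μ * l⁻¹)⁻¹)
        (fun _ _ => Finset.mem_univ _) (fun _ _ => Finset.mem_univ _) (fun κ _ => mul_inv_cancel_right _ _)
        (fun κ _ => inv_mul_cancel_right _ _) ?_
      intro κ _
      have h6 : permExt (ι'.trans l.toEmbedding) μ⁻¹ = l * permExt ι' μ⁻¹ * l⁻¹ := by
        have h7 := mul_permExt (ι'.trans l.toEmbedding) μ⁻¹ l
        have h8 : ((ι'.trans l.toEmbedding).trans l.symm.toEmbedding) = ι' := by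
          ext i
          simp
        rw [h8] at h7
        rw [← h7, mul_inv_cancel_right]
      have h9 : (Perm.sign (permExt ι' μ) : ℤ) = (Perm.sign μ : ℤ) := by
        rw [sign_permExt]
      rw [← permExt_trans, h6]
      have h10 : ρ * permExt ι (κ * (l * permExt ι' μ * l⁻¹)) * permExt ι (l * permExt ι' μ⁻¹ * l⁻¹) =
          ρ * permExt ι κ := by
        rw [mul_assoc, ← permExt_mul]
        congr 2
        rw [← permExt_inv]
        group
      have h11 : κ * (l * permExt ι' μ * l⁻¹) * l = κ * (l * permExt ι' μ) := by group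
      rw [h10, h11, Perm.sign_mul, Perm.sign_mul, Perm.sign_mul, Perm.sign_inv, smul_smul]
      congr 1
      push_cast
      rw [h9]
      have h12 : ((Perm.sign l : ℤˣ) : ℤ) * ((Perm.sign l : ℤˣ) : ℤ) = 1 := by
        rw [← Units.val_mul, Int.units_mul_self, Units.val_one]
      linear_combination -((Perm.sign κ : ℤˣ) : ℤ) * ((Perm.sign μ : ℤˣ) : ℤ) * h12
    rw [Finset.sum_congr rfl fun μ _ => h5 μ, Finset.sum_comm]
    refine Finset.sum_eq_zero fun κ _ => ?_
    rw [← Finset.smul_sum]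
    have h13 := h1 ((ι'.trans l.toEmbedding).trans ι) (ρ * permExt ι κ) (σ * permExt ι (κ * l))
    have h14 : ∑ μ : Perm (Fin a), G ((ρ * permExt ι κ) * permExt ((ι'.trans l.toEmbedding).trans ι) μ⁻¹)
        (σ * permExt ι (κ * l)) =
        ∑ μ : Perm (Fin a), G ((ρ * permExt ι κ) * permExt ((ι'.trans l.toEmbedding).trans ι) μ)
        (σ * permExt ι (κ * l)) :=
      Finset.sum_nbij' (fun μ => μ⁻¹) (fun μ => μ⁻¹) (fun _ _ => Finset.mem_univ _)
        (fun _ _ => Finset.mem_univ _) (fun _ _ => inv_inv _) (fun _ _ => inv_inv _) (fun _ _ => rfl)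
    rw [h14, h13, smul_zero]

/-- **Kimura's argument** for the product of three odd objects. -/
theorem kimura_odd {R : Type*} [CommRing R] {a : ℕ} (ha : 0 < a) (hm : (a - 1) * ((a - 1) * (a - 1)) < m)
    (M M' M'' : Fin m → Fin m → R) (ψ : R →+ V)
    (hinv : ∀ ρ σ τ κ : Perm (Fin m), ψ ((∏ k, M k (ρ k)) * (∏ k, M' k (σ k)) * ∏ k, M'' k (τ k)) =
      ψ ((∏ k, M k ((ρ * κ) k)) * (∏ k, M' k ((σ * κ) k)) * ∏ k, M'' k ((τ * κ) k)))
    (hM : ∀ u v : Fin a → Fin m, (Matrix.of fun i j => M (u i) (v j)).permanent = 0)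
    (hM' : ∀ u v : Fin a → Fin m, (Matrix.of fun i j => M' (u i) (v j)).permanent = 0)
    (hM'' : ∀ u v : Fin a → Fin m, (Matrix.of fun i j => M'' (u i) (v j)).permanent = 0) :
    ψ ((∏ k, M k k) * (∏ k, M' k k) * ∏ k, M'' k k) = 0 := by
  have key := fun_eq_zero (V := V) a ((a - 1) * (a - 1)) hm
    (fun τ => ψ ((∏ k, M k k) * (∏ k, M' k k) * ∏ k, M'' k (τ k))) ?_ ?_ 1
  · simpa using key
  · intro ι τ
    rw [← map_sum, ← Finset.mul_sum, sum_perm M'' hM'' ι τ, mul_zero, map_zero]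
  · intro ι τ
    have h1 := alt_of_sym (n := (a - 1) * (a - 1) + 1) ha (Nat.lt_succ_self _)
      (fun ρ σ : Perm (Fin m) => ψ ((∏ k, M k (ρ k)) * (∏ k, M' k (σ k)) * ∏ k, M'' k (τ k)))
      (fun ι ρ σ => by
        rw [← map_sum, ← Finset.sum_mul, ← Finset.sum_mul, sum_perm M hM ι ρ, zero_mul, zero_mul, map_zero])
      (fun ι ρ σ => by
        rw [← map_sum, ← Finset.sum_mul, ← Finset.mul_sum, sum_perm M' hM' ι σ, mul_zero, zero_mul, map_zero])
      ι 1 1
    rw [← h1]
    refine Finset.sum_nbij' (fun κ => κ⁻¹) (fun κ => κ⁻¹) (fun _ _ => Finset.mem_univ _)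
      (fun _ _ => Finset.mem_univ _) (fun _ _ => inv_inv _) (fun _ _ => inv_inv _) ?_
    intro κ _
    have h2 := hinv 1 1 (τ * permExt ι κ) (permExt ι κ)⁻¹
    rw [mul_inv_cancel_right, permExt_inv] at h2
    rw [Perm.sign_inv]
    congr 1

end Pool.Agent.Helper88.SP
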