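import Pool.Agent.Helper88.SQ.Gross

/-!
# One-dimensional cycles on products of three varieties
-/

set_option autoImplicit false
set_option linter.unusedVariables false

open CategoryTheory CategoryTheory.Limits Pool.Agent.Helper81.Smash Equiv

namespace Pool.Agent.Helper88.SP

attribute [local simp] prod.lift_fst prod.lift_snd prod.lift_fst_assoc prod.lift_snd_assoc

universe u v w

variable {𝒱 : Type u} [Category.{v} 𝒱] [HasFiniteProducts 𝒱] {S : HomCycles.{u, v, w} 𝒱} {K : PushForward S}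

lemma sw_map {X Y X' Y' : 𝒱} (f : X ⟶ X') (g : Y ⟶ Y') : sw X Y ≫ prod.map g f = prod.map f g ≫ sw X' Y' := by
  unfold sw
  ext <;> simp

lemma push_sw_ext (hF : K.RFunctor) {X Y : 𝒱} (a : S.A X) (b : S.A Y) : K.push (sw X Y) (ext a b) = ext b a := by
  rw [← pull_inv hF (sw X Y) (sw Y X) (sw_sw _ _) (sw_sw _ _)]
  unfold ext
  rw [map_mul, ← S.pull_comp, ← S.pull_comp, sw_fst, sw_snd, mul_comm]

/-- push-forward of exterior products -/
lemma push_map_ext (hF : K.RFunctor) (hB : K.RBase) {X X' Y Y' : 𝒱} (f : X ⟶ X') (g : Y ⟶ Y') (a : S.A X)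
    (b : S.A Y) : K.push (prod.map f g) (ext a b) = ext (K.push f a) (K.push g b) := by
  have h1 : prod.map f g = prod.map f (𝟙 Y) ≫ sw X' Y ≫ prod.map g (𝟙 X') ≫ sw Y' X' := by
    rw [← Category.assoc (sw X' Y), sw_map, Category.assoc, sw_sw, Category.comp_id, prod.map_map, Category.comp_id,
      Category.id_comp]
  rw [h1, hF.push_comp, hF.push_comp, hF.push_comp, push_ext hF hB, push_sw_ext hF, push_ext hF hB, push_sw_ext hF]

/-- the class `C × q` as a push-forward -/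
lemma pull_snd_pt (hF : K.RFunctor) (hB : K.RBase) {C W : 𝒱} (q : ⊤_ 𝒱 ⟶ C) :
    S.pull (prod.snd : W ⨯ C ⟶ C) (K.pt q) = K.push (prod.lift (𝟙 W) (cst W q)) 1 := by
  have h1 : prod.lift (𝟙 W) (cst W q) = prod.lift (terminal.from W ≫ q) (𝟙 W) ≫ sw C W := by
    rw [lift_sw]
    rfl
  rw [h1, hF.push_comp, ← pull_fst_pt hF hB, ← pull_inv hF (sw C W) (sw W C) (sw_sw _ _) (sw_sw _ _),
    ← S.pull_comp, sw_fst]

lemma push_lift_cst (hF : K.RFunctor) (hB : K.RBase) {D U Z : 𝒱} (a : D ⟶ U) (q : ⊤_ 𝒱 ⟶ Z) :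
    K.push (prod.lift a (cst D q)) 1 = ext (K.push a 1) (K.pt q) := by
  have h1 : prod.lift a (cst D q) = prod.lift (𝟙 D) (cst D q) ≫ prod.map a (𝟙 Z) := by
    rw [prod.lift_map, Category.id_comp, Category.comp_id]
  rw [h1, hF.push_comp, ← pull_snd_pt hF hB, ← ext_one_left, push_ext hF hB]

/-- `((x, y), z) ↦ (x, (y, z))` -/
noncomputable def kz (X Y Z : 𝒱) : (X ⨯ Y) ⨯ Z ⟶ X ⨯ (Y ⨯ Z) :=
  prod.lift (prod.fst ≫ prod.fst) (prod.lift (prod.fst ≫ prod.snd) prod.snd)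

/-- `(x, (y, z)) ↦ ((x, y), z)` -/
noncomputable def kz' (X Y Z : 𝒱) : X ⨯ (Y ⨯ Z) ⟶ (X ⨯ Y) ⨯ Z :=
  prod.lift (prod.lift prod.fst (prod.snd ≫ prod.fst)) (prod.snd ≫ prod.snd)

/-- `((x, z), y) ↦ (x, (y, z))` -/
noncomputable def ky (X Y Z : 𝒱) : (X ⨯ Z) ⨯ Y ⟶ X ⨯ (Y ⨯ Z) :=
  prod.lift (prod.fst ≫ prod.fst) (prod.lift prod.snd (prod.fst ≫ prod.snd))

/-- `(x, (y, z)) ↦ ((x, z), y)` -/
noncomputable def ky' (X Y Z : 𝒱) : X ⨯ (Y ⨯ Z) ⟶ (X ⨯ Z) ⨯ Y :=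
  prod.lift (prod.lift prod.fst (prod.snd ≫ prod.snd)) (prod.snd ≫ prod.fst)

lemma kz_kz' (X Y Z : 𝒱) : kz X Y Z ≫ kz' X Y Z = 𝟙 _ := by
  unfold kz kz'
  ext <;> simp

lemma kz'_kz (X Y Z : 𝒱) : kz' X Y Z ≫ kz X Y Z = 𝟙 _ := by
  unfold kz kz'
  ext <;> simp

lemma ky_ky' (X Y Z : 𝒱) : ky X Y Z ≫ ky' X Y Z = 𝟙 _ := by
  unfold ky ky'
  ext <;> simp

lemma ky'_ky (X Y Z : 𝒱) : ky' X Y Z ≫ ky X Y Z = 𝟙 _ := by
  unfold ky ky'
  ext <;> simp

section gross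

variable {C : 𝒱} (p : ⊤_ 𝒱 ⟶ C)

/-- `Δ(x, y)` -/
noncomputable def dd (K : PushForward S) {C W : 𝒱} (x y : W ⟶ C) : S.A W := S.pull (prod.lift x y) (K.graph (𝟙 C))

lemma odd2_def {W : 𝒱} (x y : W ⟶ C) : odd2 K p x y = dd K x y - S.pull x (K.pt p) - S.pull y (K.pt p) := by
  unfold odd2 dd
  rw [oddPart_def, map_sub, map_sub, ← S.pull_comp, ← S.pull_comp, prod.lift_fst, prod.lift_snd]

/-- `p(x) Δ(x, y) = p(x) p(y)` -/
lemma pt_mul_dd (hF : K.RFunctor) (hB : K.RBase) {W : 𝒱} (x y : W ⟶ C) :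
    S.pull x (K.pt p) * dd K x y = S.pull x (K.pt p) * S.pull y (K.pt p) := by
  have h1 : S.pull (prod.fst : C ⨯ C ⟶ C) (K.pt p) * K.graph (𝟙 C) =
      S.pull (prod.fst : C ⨯ C ⟶ C) (K.pt p) * S.pull (prod.snd : C ⨯ C ⟶ C) (K.pt p) := by
    rw [pull_fst_pt hF hB, mul_comm, ← hF.projection, mul_one, pull_point_graph hF hB, Category.comp_id,
      mul_comm, ← hF.projection, mul_one, ← S.pull_comp, prod.lift_snd, S.pull_id]
  have h2 := congrArg (S.pull (prod.lift x y)) h1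
  rw [map_mul, map_mul, ← S.pull_comp, ← S.pull_comp, prod.lift_fst, prod.lift_snd] at h2
  exact h2

lemma pt_mul_pt (hF : K.RFunctor) (hV : K.RVarieties) (hC : S.dim C = 1) : K.pt p * K.pt p = 0 := by
  have h1 := hF.projection p (K.pt p) 1
  rw [mul_one, pull_pt_eq_zero hF hV hC, map_zero] at h1
  exact h1.symm

/-- the modified small diagonal as a sum of partial diagonals -/
lemma gross_eq (hF : K.RFunctor) (hB : K.RBase) (hV : K.RVarieties) (hC : S.dim C = 1) {W : 𝒱} (x y z : W ⟶ C) :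
    odd2 K p x y * odd2 K p x z - S.pull x (K.pt p) * odd2 K p y z =
      dd K x y * dd K x z - dd K x y * S.pull z (K.pt p) - dd K x z * S.pull y (K.pt p) -
      S.pull x (K.pt p) * dd K y z + S.pull x (K.pt p) * (S.pull y (K.pt p) * 1) +
      S.pull x (K.pt p) * (1 * S.pull z (K.pt p)) + 1 * (S.pull y (K.pt p) * S.pull z (K.pt p)) := by
  have h1 := pt_mul_dd p hF hB x y
  have h2 := pt_mul_dd p hF hB x z
  have h3 : S.pull x (K.pt p) * S.pull x (K.pt p) = 0 := by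
    rw [← map_mul, pt_mul_pt p hF hV hC, map_zero]
  rw [odd2_def, odd2_def, odd2_def]
  linear_combination h3 - h1 - h2

/-- the image of the small diagonal -/
lemma push_small (hF : K.RFunctor) (hB : K.RBase) {X Y Z : 𝒱} (f : C ⟶ X) (g : C ⟶ Y) (h : C ⟶ Z) :
    K.push (prod.map f (prod.map g h)) (dd K (prod.fst : C ⨯ (C ⨯ C) ⟶ C) (prod.snd ≫ prod.fst) *
      dd K prod.fst (prod.snd ≫ prod.snd)) = K.push (prod.lift f (prod.lift g h)) 1 := by
  have h1 : dd K (prod.fst : C ⨯ (C ⨯ C) ⟶ C) (prod.snd ≫ prod.fst) = K.push (sec (prod.fst : C ⨯ C ⟶ C)) 1 := by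
    rw [← dia_eq hF hB]
    unfold dd dia
    congr 2
    ext <;> simp
  have h2 : S.pull (sec (prod.fst : C ⨯ C ⟶ C)) (dd K prod.fst (prod.snd ≫ prod.snd)) =
      K.push (prod.lift (𝟙 C) (𝟙 C)) 1 := by
    unfold dd
    rw [← S.pull_comp]
    have h3 : sec (prod.fst : C ⨯ C ⟶ C) ≫ prod.lift prod.fst (prod.snd ≫ prod.snd) = 𝟙 _ := by
      unfold sec
      ext <;> simp
    rw [h3, S.pull_id]
    rfl
  rw [h1, mul_comm, ← hF.projection, mul_one, h2, ← hF.push_comp, ← hF.push_comp]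
  congr 2
  unfold sec
  ext <;> simp

lemma push_kz (hF : K.RFunctor) (X Y Z : 𝒱) (c : S.A (X ⨯ Y)) (b : S.A Z) :
    K.push (kz X Y Z) (ext c b) = S.pull (prod.lift prod.fst (prod.snd ≫ prod.fst)) c *
      S.pull (prod.snd ≫ prod.snd) b := by
  rw [← pull_inv hF (kz X Y Z) (kz' X Y Z) (kz_kz' _ _ _) (kz'_kz _ _ _)]
  unfold ext
  rw [map_mul, ← S.pull_comp, ← S.pull_comp]
  unfold kz'
  rw [prod.lift_fst, prod.lift_snd]

lemma push_ky (hF : K.RFunctor) (X Y Z : 𝒱) (c : S.A (X ⨯ Z)) (b : S.A Y) :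
    K.push (ky X Y Z) (ext c b) = S.pull (prod.lift prod.fst (prod.snd ≫ prod.snd)) c *
      S.pull (prod.snd ≫ prod.fst) b := by
  rw [← pull_inv hF (ky X Y Z) (ky' X Y Z) (ky_ky' _ _ _) (ky'_ky _ _ _)]
  unfold ext
  rw [map_mul, ← S.pull_comp, ← S.pull_comp]
  unfold ky'
  rw [prod.lift_fst, prod.lift_snd]

lemma push_map_graph (hF : K.RFunctor) {X Y : 𝒱} (f : C ⟶ X) (g : C ⟶ Y) :
    K.push (prod.map f g) (K.graph (𝟙 C)) = K.push (prod.lift f g) 1 := by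
  unfold PushForward.graph
  rw [← hF.push_comp, prod.lift_map, Category.id_comp, Category.id_comp]

lemma push_pt (hF : K.RFunctor) {X : 𝒱} (f : C ⟶ X) : K.push f (K.pt p) = K.pt (p ≫ f) := by
  unfold PushForward.pt
  rw [hF.push_comp]

/-- modulo smash-nilpotent cycles, a curve in `X × Y × Z` is a sum of curves in the partial products -/
theorem gross_push (hK : K.RStandard) (hO : K.CurvesOdd) (hC : S.dim C = 1) {X Y Z : 𝒱} (f : C ⟶ X) (g : C ⟶ Y)
    (h : C ⟶ Z) :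
    K.push (prod.lift f (prod.lift g h)) 1 - K.push (kz X Y Z) (ext (K.push (prod.lift f g) 1) (K.pt (p ≫ h))) -
      K.push (ky X Y Z) (ext (K.push (prod.lift f h) 1) (K.pt (p ≫ g))) -
      ext (K.pt (p ≫ f)) (K.push (prod.lift g h) 1) + ext (K.pt (p ≫ f)) (ext (K.pt (p ≫ g)) (K.push h 1)) +
      ext (K.pt (p ≫ f)) (ext (K.push g 1) (K.pt (p ≫ h))) +
      ext (K.push f 1) (ext (K.pt (p ≫ g)) (K.pt (p ≫ h))) ∈ Sn S (X ⨯ (Y ⨯ Z)) := by
  have hF := hK.isFunctor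
  have hB := hK.baseChange
  have h1 := sn_push hF (prod.map f (prod.map g h)) (gross_sn hK hO hC p (prod.fst : C ⨯ (C ⨯ C) ⟶ C)
    (prod.snd ≫ prod.fst) (prod.snd ≫ prod.snd))
  rw [gross_eq p hF hB hK.varieties hC] at h1
  simp only [map_add, map_sub] at h1
  -- the seven terms
  have t2 : K.push (prod.map f (prod.map g h)) (dd K (prod.fst : C ⨯ (C ⨯ C) ⟶ C) (prod.snd ≫ prod.fst) *
      S.pull (prod.snd ≫ prod.snd) (K.pt p)) =
      K.push (kz X Y Z) (ext (K.push (prod.lift f g) 1) (K.pt (p ≫ h))) := by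
    unfold dd
    rw [← push_kz hF, ← hF.push_comp]
    have h2 : kz C C C ≫ prod.map f (prod.map g h) = prod.map (prod.map f g) h ≫ kz X Y Z := by
      unfold kz
      ext <;> simp
    rw [h2, hF.push_comp, push_map_ext hF hB, push_map_graph hF, push_pt p hF]
  have t3 : K.push (prod.map f (prod.map g h)) (dd K (prod.fst : C ⨯ (C ⨯ C) ⟶ C) (prod.snd ≫ prod.snd) *
      S.pull (prod.snd ≫ prod.fst) (K.pt p)) =
      K.push (ky X Y Z) (ext (K.push (prod.lift f h) 1) (K.pt (p ≫ g))) := by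
    unfold dd
    rw [← push_ky hF, ← hF.push_comp]
    have h2 : ky C C C ≫ prod.map f (prod.map g h) = prod.map (prod.map f h) g ≫ ky X Y Z := by
      unfold ky
      ext <;> simp
    rw [h2, hF.push_comp, push_map_ext hF hB, push_map_graph hF, push_pt p hF]
  have t4 : K.push (prod.map f (prod.map g h)) (S.pull (prod.fst : C ⨯ (C ⨯ C) ⟶ C) (K.pt p) *
      dd K (prod.snd ≫ prod.fst) (prod.snd ≫ prod.snd)) = ext (K.pt (p ≫ f)) (K.push (prod.lift g h) 1) := by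
    have h2 : S.pull (prod.fst : C ⨯ (C ⨯ C) ⟶ C) (K.pt p) * dd K (prod.snd ≫ prod.fst) (prod.snd ≫ prod.snd) =
        ext (K.pt p) (K.graph (𝟙 C)) := by
      unfold dd ext
      congr 3
      ext <;> simp
    rw [h2, push_map_ext hF hB, push_map_graph hF, push_pt p hF]
  have t5 : K.push (prod.map f (prod.map g h)) (S.pull (prod.fst : C ⨯ (C ⨯ C) ⟶ C) (K.pt p) *
      (S.pull (prod.snd ≫ prod.fst) (K.pt p) * 1)) = ext (K.pt (p ≫ f)) (ext (K.pt (p ≫ g)) (K.push h 1)) := by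
    have h2 : S.pull (prod.fst : C ⨯ (C ⨯ C) ⟶ C) (K.pt p) * (S.pull (prod.snd ≫ prod.fst) (K.pt p) * 1) =
        ext (K.pt p) (ext (K.pt p) 1) := by
      unfold ext
      rw [map_mul, map_one, map_one, ← S.pull_comp]
    rw [h2, push_map_ext hF hB, push_map_ext hF hB, push_pt p hF, push_pt p hF]
  have t6 : K.push (prod.map f (prod.map g h)) (S.pull (prod.fst : C ⨯ (C ⨯ C) ⟶ C) (K.pt p) *
      (1 * S.pull (prod.snd ≫ prod.snd) (K.pt p))) = ext (K.pt (p ≫ f)) (ext (K.push g 1) (K.pt (p ≫ h))) := by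
    have h2 : S.pull (prod.fst : C ⨯ (C ⨯ C) ⟶ C) (K.pt p) * (1 * S.pull (prod.snd ≫ prod.snd) (K.pt p)) =
        ext (K.pt p) (ext 1 (K.pt p)) := by
      unfold ext
      rw [map_mul, map_one, map_one, ← S.pull_comp]
    rw [h2, push_map_ext hF hB, push_map_ext hF hB, push_pt p hF, push_pt p hF]
  have t7 : K.push (prod.map f (prod.map g h)) (1 * (S.pull (prod.snd ≫ prod.fst : C ⨯ (C ⨯ C) ⟶ C) (K.pt p) *
      S.pull (prod.snd ≫ prod.snd) (K.pt p))) = ext (K.push f 1) (ext (K.pt (p ≫ g)) (K.pt (p ≫ h))) := by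
    have h2 : 1 * (S.pull (prod.snd ≫ prod.fst : C ⨯ (C ⨯ C) ⟶ C) (K.pt p) *
        S.pull (prod.snd ≫ prod.snd) (K.pt p)) = ext 1 (ext (K.pt p) (K.pt p)) := by
      unfold ext
      rw [map_mul, map_one, ← S.pull_comp, ← S.pull_comp]
    rw [h2, push_map_ext hF hB, push_map_ext hF hB, push_pt p hF, push_pt p hF]
  rw [push_small hF hB, t2, t3, t4, t5, t6, t7] at h1
  exact h1

end gross

end Pool.Agent.Helper88.SP
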