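import Pool.Agent.Helper88.SP.Kimura
import Pool.Agent.Helper88.SQ.Odd

/-!
# The ideal of smash-nilpotent cycles; integration over a factor
-/

set_option autoImplicit false
set_option linter.unusedVariables false

open CategoryTheory CategoryTheory.Limits Pool.Agent.Helper81.Smash Equiv

namespace Pool.Agent.Helper88.SP

attribute [local simp] prod.lift_fst prod.lift_snd prod.lift_fst_assoc prod.lift_snd_assoc

universe u v w

variable {𝒱 : Type u} [Category.{v} 𝒱] [HasFiniteProducts 𝒱] {S : HomCycles.{u, v, w} 𝒱} {K : PushForward S}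

/-- the smash-nilpotent cycles -/
def Sn (S : HomCycles.{u, v, w} 𝒱) (X : 𝒱) : Submodule ℚ (S.A X) where
  carrier := {a | S.SmashNilpotent a}
  zero_mem' := ⟨1, le_rfl, by
    rw [smash_def]
    simp⟩
  add_mem' := by
    rintro a b ⟨m, hm, hma⟩ ⟨n, hn, hnb⟩
    exact ⟨m + n, by omega, smash_add hma hnb⟩
  smul_mem' := by
    rintro q a ⟨m, hm, hma⟩
    refine ⟨m, hm, ?_⟩
    rw [Algebra.smul_def, smash_mul, hma, mul_zero]

lemma sn_of_nil {X : 𝒱} {a : S.A X} (ha : a ∈ Nil S X) : a ∈ Sn S X := ha.2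

lemma sn_mul {X : 𝒱} {a : S.A X} (ha : a ∈ Sn S X) (b : S.A X) : a * b ∈ Sn S X := by
  obtain ⟨m, hm, hma⟩ := ha
  exact ⟨m, hm, by rw [smash_mul, hma, zero_mul]⟩

lemma sn_pull {X Y : 𝒱} (f : X ⟶ Y) {a : S.A Y} (ha : a ∈ Sn S Y) : S.pull f a ∈ Sn S X := by
  obtain ⟨m, hm, hma⟩ := ha
  exact ⟨m, hm, by rw [smash_pull, hma, map_zero]⟩

lemma sn_push (hK : K.RFunctor) {X Y : 𝒱} (f : X ⟶ Y) {a : S.A X} (ha : a ∈ Sn S X) :
    K.push f a ∈ Sn S Y := by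
  obtain ⟨m, hm, hma⟩ := ha
  exact ⟨m, hm, by rw [← hK.push_smash, hma, map_zero]⟩

lemma sn_ext_left {X Y : 𝒱} {a : S.A X} (ha : a ∈ Sn S X) (b : S.A Y) : ext a b ∈ Sn S (X ⨯ Y) :=
  sn_mul (sn_pull _ ha) _

lemma sn_ext_right {X Y : 𝒱} (a : S.A X) {b : S.A Y} (hb : b ∈ Sn S Y) : ext a b ∈ Sn S (X ⨯ Y) := by
  unfold ext
  rw [mul_comm]
  exact sn_mul (sn_pull _ hb) _

/-- points are equal modulo smash-nilpotent cycles -/
lemma pt_sub_pt_sn (hK : K.RStandard) (hO : K.CurvesOdd) {X : 𝒱} (p q : ⊤_ 𝒱 ⟶ X) :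
    K.pt p - K.pt q ∈ Sn S X := by
  have hF := hK.isFunctor
  obtain ⟨C, j, s, t, hC, rfl, rfl⟩ := hK.varieties.joined p q
  have h2 : K.pt (s ≫ j) - K.pt (t ≫ j) = K.push j (K.pt s - K.pt t) := by
    unfold PushForward.pt
    rw [hF.push_comp, hF.push_comp, map_sub]
  rw [h2]
  exact sn_push hF _ (sn_of_nil (pt_sub_pt_mem hK hO hC s t))

/-- zero-cycles of degree zero are smash-nilpotent -/
lemma zero_sn (hK : K.RStandard) (hO : K.CurvesOdd) {X : 𝒱} {a : S.A X} (ha : a ∈ cycles S X 0)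
    (ha' : a ∈ S.hom X) : a ∈ Sn S X := by
  have hD := hK.degrees
  obtain ⟨x⟩ := hK.varieties.points X
  let Λ : S.A X →ₗ[ℚ] S.A X := LinearMap.id - (K.deg (X := X)).smulRight (K.pt x)
  have hΛ : ∀ c, Λ c = c - K.deg c • K.pt x := fun c => rfl
  have h6 : cycles S X 0 ≤ (Sn S X).comap Λ := by
    refine (hK.varieties.zeroCycles X).trans (Submodule.span_le.mpr ?_)
    rintro _ ⟨q, rfl⟩
    rw [SetLike.mem_coe, Submodule.mem_comap, hΛ, hD.deg_pt, one_smul]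
    exact pt_sub_pt_sn hK hO q x
  have h7 := h6 ha
  rw [Submodule.mem_comap, hΛ, (hD.hom_iff _ ha).mp ha', zero_smul, sub_zero] at h7
  exact h7

/-! ## Integration -/

/-- integration over the first factor -/
noncomputable def int (K : PushForward S) {U W : 𝒱} : S.A (U ⨯ W) →ₗ[ℚ] S.A W :=
  K.push (prod.snd : U ⨯ W ⟶ W)

lemma int_def {U W : 𝒱} (a : S.A (U ⨯ W)) : int K a = K.push (prod.snd : U ⨯ W ⟶ W) a := rfl

/-- base change -/
lemma pull_int (hB : K.RBase) {U W W' : 𝒱} (k : W' ⟶ W) (a : S.A (U ⨯ W)) :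
    S.pull k (int K a) = int K (S.pull (prod.map (𝟙 U) k) a) := (hB.pull_snd U k a).symm

/-- the projection formula -/
lemma int_mul (hF : K.RFunctor) {U W : 𝒱} (a : S.A (U ⨯ W)) (c : S.A W) :
    int K (a * S.pull (prod.snd : U ⨯ W ⟶ W) c) = int K a * c := by
  rw [mul_comm, int_def, hF.projection, mul_comm]
  rfl

lemma int_mul' (hF : K.RFunctor) {U W : 𝒱} (a : S.A (U ⨯ W)) (c : S.A W) :
    int K (S.pull (prod.snd : U ⨯ W ⟶ W) c * a) = c * int K a := hF.projection _ _ _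

/-- the morphism `w ↦ (h w, w)` -/
noncomputable def sec {U W : 𝒱} (h : W ⟶ U) : W ⟶ U ⨯ W := prod.lift h (𝟙 W)

lemma sec_fst {U W : 𝒱} (h : W ⟶ U) : sec h ≫ prod.fst = h := prod.lift_fst _ _

lemma sec_snd {U W : 𝒱} (h : W ⟶ U) : sec h ≫ prod.snd = 𝟙 W := prod.lift_snd _ _

/-- the diagonal class at `(u, h w)` -/
noncomputable def dia (K : PushForward S) {U W : 𝒱} (h : W ⟶ U) : S.A (U ⨯ W) :=
  S.pull (prod.map (𝟙 U) h) (K.graph (𝟙 U))

lemma dia_eq (hF : K.RFunctor) (hB : K.RBase) {U W : 𝒱} (h : W ⟶ U) : dia K h = K.push (sec h) 1 :=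
  pull_map_graph hF hB h

/-- integration against the diagonal -/
lemma int_dia (hF : K.RFunctor) (hB : K.RBase) {U W : 𝒱} (h : W ⟶ U) (b : S.A (U ⨯ W)) :
    int K (dia K h * b) = S.pull (sec h) b := by
  rw [dia_eq hF hB, mul_comm, ← hF.projection, mul_one, int_def, ← hF.push_comp, sec_snd, hF.push_id]

/-- the constant morphism -/
noncomputable def cst (W : 𝒱) {U : 𝒱} (p : ⊤_ 𝒱 ⟶ U) : W ⟶ U := terminal.from W ≫ p

lemma comp_cst {W W' U : 𝒱} (k : W' ⟶ W) (p : ⊤_ 𝒱 ⟶ U) : k ≫ cst W p = cst W' p := by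
  unfold cst
  rw [← Category.assoc]
  congr 1
  exact terminal.hom_ext _ _

lemma cst_comp {W U U' : 𝒱} (p : ⊤_ 𝒱 ⟶ U) (k : U ⟶ U') : cst W p ≫ k = cst W (p ≫ k) := by
  unfold cst
  rw [Category.assoc]

/-- integration against a point -/
lemma int_pt (hF : K.RFunctor) (hB : K.RBase) {U W : 𝒱} (p : ⊤_ 𝒱 ⟶ U) (b : S.A (U ⨯ W)) :
    int K (S.pull (prod.fst : U ⨯ W ⟶ U) (K.pt p) * b) = S.pull (sec (cst W p)) b := by
  have h1 : S.pull (prod.fst : U ⨯ W ⟶ U) (K.pt p) = K.push (sec (cst W p)) 1 := pull_fst_pt hF hB p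
  rw [h1, mul_comm, ← hF.projection, mul_one, int_def, ← hF.push_comp, sec_snd, hF.push_id]

/-- integration of a class on `U` -/
lemma int_fst (hD : K.RDegrees) {U W : 𝒱} (a : S.A U) :
    int K (S.pull (prod.fst : U ⨯ W ⟶ U) a) = algebraMap ℚ _ (K.deg a) := hD.snd_fst a

lemma deg_one (hD : K.RDegrees) {U : 𝒱} (hU : 0 < S.dim U) : K.deg (1 : S.A U) = 0 := by
  obtain ⟨d, hd⟩ : ∃ d, S.dim U = d + 1 := ⟨S.dim U - 1, by omega⟩
  exact hD.deg_cycles d 1 (one_mem_cycles hd)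

lemma int_one (hD : K.RDegrees) {U W : 𝒱} (hU : 0 < S.dim U) : int K (1 : S.A (U ⨯ W)) = 0 := by
  have h := int_fst hD (W := W) (1 : S.A U)
  rwa [map_one, deg_one hD hU, RingHom.map_zero] at h

/-- Fubini -/
lemma int_int (hF : K.RFunctor) {U V W : 𝒱} (a : S.A ((U ⨯ V) ⨯ W)) :
    int K a = int K (int K (S.pull (prod.lift (prod.lift prod.fst (prod.snd ≫ prod.fst)) (prod.snd ≫ prod.snd) :
      U ⨯ (V ⨯ W) ⟶ (U ⨯ V) ⨯ W) a)) := by
  rw [pull_inv hF (prod.lift (prod.fst ≫ prod.fst) (prod.lift (prod.fst ≫ prod.snd) prod.snd) :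
      (U ⨯ V) ⨯ W ⟶ U ⨯ (V ⨯ W)) (prod.lift (prod.lift prod.fst (prod.snd ≫ prod.fst)) (prod.snd ≫ prod.snd))
    (by
      ext <;> simp) (by
      ext <;> simp)]
  simp only [int_def]
  rw [← hF.push_comp, ← hF.push_comp]
  congr 2
  simp

/-- exchange of the integrals -/
lemma int_swap (hF : K.RFunctor) {U V W : 𝒱} (a : S.A (U ⨯ (V ⨯ W))) :
    int K (int K a) = int K (int K (S.pull (prod.lift (prod.snd ≫ prod.fst) (prod.lift prod.fst (prod.snd ≫ prod.snd)) :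
      V ⨯ (U ⨯ W) ⟶ U ⨯ (V ⨯ W)) a)) := by
  rw [pull_inv hF (prod.lift (prod.snd ≫ prod.fst) (prod.lift prod.fst (prod.snd ≫ prod.snd)) :
      U ⨯ (V ⨯ W) ⟶ V ⨯ (U ⨯ W)) (prod.lift (prod.snd ≫ prod.fst) (prod.lift prod.fst (prod.snd ≫ prod.snd)))
    (by
      ext <;> simp) (by
      ext <;> simp)]
  simp only [int_def]
  rw [← hF.push_comp, ← hF.push_comp, ← hF.push_comp]
  congr 2
  simp

end Pool.Agent.Helper88.SP
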