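import Pool.Agent.Helper88.SQ.Pairs

/-!
# Voevodsky's conjecture for one-dimensional cycles on products
-/

set_option autoImplicit false
set_option linter.unusedVariables false

open CategoryTheory CategoryTheory.Limits Pool.Agent.Helper81.Smash Equiv

namespace Pool.Agent.Helper88.SP

attribute [local simp] prod.lift_fst prod.lift_snd prod.lift_fst_assoc prod.lift_snd_assoc

universe u v w

variable {𝒱 : Type u} [Category.{v} 𝒱] [HasFiniteProducts 𝒱] {S : HomCycles.{u, v, w} 𝒱} {K : PushForward S}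

/-- smash-nilpotence of homologically trivial 1-cycles is invariant under isomorphisms -/
lemma voev_iso (hF : K.RFunctor) {X Y : 𝒱} (e : X ≅ Y) {d : ℕ} (h : Voevodsky S X d) : Voevodsky S Y d := by
  intro z hz hz'
  have h1 : z = K.push e.hom (S.pull e.hom z) := by
    rw [← pull_inv hF e.hom e.inv e.hom_inv_id e.inv_hom_id, ← S.pull_comp, e.inv_hom_id, S.pull_id]
  have h2 : S.pull e.hom z = K.push e.inv z := pull_inv hF e.inv e.hom e.inv_hom_id e.hom_inv_id z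
  have h3 : S.pull e.hom z ∈ Sn S X := by
    refine h _ ?_ (S.pull_hom _ hz')
    rw [h2]
    exact hF.push_cycles _ _ _ hz
  rw [h1]
  exact sn_push hF _ h3

lemma voev_sn {X : 𝒱} {d : ℕ} (h : Voevodsky S X d) {z : S.A X} (hz : z ∈ cycles S X d) (hz' : z ∈ S.hom X) :
    z ∈ Sn S X := h z hz hz'

/-- **Products of three varieties.** -/
theorem three (hK : K.RStandard) (hO : K.CurvesOdd) {X Y Z : 𝒱} (hXY : Voevodsky S (X ⨯ Y) 1)
    (hXZ : Voevodsky S (X ⨯ Z) 1) (hYZ : Voevodsky S (Y ⨯ Z) 1) : Voevodsky S (X ⨯ (Y ⨯ Z)) 1 := by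
  have hF := hK.isFunctor
  have hB := hK.baseChange
  have hV := hK.varieties
  obtain ⟨x₀⟩ := hV.points X
  obtain ⟨y₀⟩ := hV.points Y
  obtain ⟨z₀⟩ := hV.points Z
  let W := X ⨯ (Y ⨯ Z)
  let q := (Sn S W).mkQ
  have e1 : ∀ (s : ⊤_ 𝒱 ⟶ X) (b : S.A (Y ⨯ Z)), q (ext (K.pt s) b) = q (ext (K.pt x₀) b) := by
    intro s b
    rw [← sub_eq_zero, ← map_sub, ← ext_sub_left]
    exact (Submodule.Quotient.mk_eq_zero _).mpr (sn_ext_left (pt_sub_pt_sn hK hO _ _) b)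
  have e2 : ∀ (s : ⊤_ 𝒱 ⟶ Y) (a : S.A X) (b : S.A Z), q (ext a (ext (K.pt s) b)) = q (ext a (ext (K.pt y₀) b)) := by
    intro s a b
    rw [← sub_eq_zero, ← map_sub, ← ext_sub_right, ← ext_sub_left]
    exact (Submodule.Quotient.mk_eq_zero _).mpr (sn_ext_right _ (sn_ext_left (pt_sub_pt_sn hK hO _ _) b))
  have e3 : ∀ (s : ⊤_ 𝒱 ⟶ Z) (a : S.A X) (b : S.A Y), q (ext a (ext b (K.pt s))) = q (ext a (ext b (K.pt z₀))) := by
    intro s a b
    rw [← sub_eq_zero, ← map_sub, ← ext_sub_right, ← ext_sub_right]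
    exact (Submodule.Quotient.mk_eq_zero _).mpr (sn_ext_right _ (sn_ext_right b (pt_sub_pt_sn hK hO _ _)))
  have e4 : ∀ (s : ⊤_ 𝒱 ⟶ Z) (c : S.A (X ⨯ Y)), q (K.push (kz X Y Z) (ext c (K.pt s))) =
      q (K.push (kz X Y Z) (ext c (K.pt z₀))) := by
    intro s c
    rw [← sub_eq_zero, ← map_sub, ← map_sub, ← ext_sub_right]
    exact (Submodule.Quotient.mk_eq_zero _).mpr (sn_push hF _ (sn_ext_right _ (pt_sub_pt_sn hK hO _ _)))
  have e5 : ∀ (s : ⊤_ 𝒱 ⟶ Y) (c : S.A (X ⨯ Z)), q (K.push (ky X Y Z) (ext c (K.pt s))) =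
      q (K.push (ky X Y Z) (ext c (K.pt y₀))) := by
    intro s c
    rw [← sub_eq_zero, ← map_sub, ← map_sub, ← ext_sub_right]
    exact (Submodule.Quotient.mk_eq_zero _).mpr (sn_push hF _ (sn_ext_right _ (pt_sub_pt_sn hK hO _ _)))
  let pXY : S.A W →ₗ[ℚ] S.A (X ⨯ Y) := K.push (prod.lift prod.fst (prod.snd ≫ prod.fst))
  let pXZ : S.A W →ₗ[ℚ] S.A (X ⨯ Z) := K.push (prod.lift prod.fst (prod.snd ≫ prod.snd))
  let pYZ : S.A W →ₗ[ℚ] S.A (Y ⨯ Z) := K.push prod.snd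
  let pX : S.A W →ₗ[ℚ] S.A X := K.push prod.fst
  let pY : S.A W →ₗ[ℚ] S.A Y := K.push (prod.snd ≫ prod.fst)
  let pZ : S.A W →ₗ[ℚ] S.A Z := K.push (prod.snd ≫ prod.snd)
  let Ψ : S.A W →ₗ[ℚ] S.A W := LinearMap.id - K.push (kz X Y Z) ∘ₗ (extL S (X ⨯ Y) Z).flip (K.pt z₀) ∘ₗ pXY -
    K.push (ky X Y Z) ∘ₗ (extL S (X ⨯ Z) Y).flip (K.pt y₀) ∘ₗ pXZ - extL S X (Y ⨯ Z) (K.pt x₀) ∘ₗ pYZ +
    extL S X (Y ⨯ Z) (K.pt x₀) ∘ₗ extL S Y Z (K.pt y₀) ∘ₗ pZ +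
    extL S X (Y ⨯ Z) (K.pt x₀) ∘ₗ (extL S Y Z).flip (K.pt z₀) ∘ₗ pY +
    (extL S X (Y ⨯ Z)).flip (ext (K.pt y₀) (K.pt z₀)) ∘ₗ pX
  have hΨ : ∀ z, Ψ z = z - K.push (kz X Y Z) (ext (pXY z) (K.pt z₀)) - K.push (ky X Y Z) (ext (pXZ z) (K.pt y₀)) -
      ext (K.pt x₀) (pYZ z) + ext (K.pt x₀) (ext (K.pt y₀) (pZ z)) + ext (K.pt x₀) (ext (pY z) (K.pt z₀)) +
      ext (pX z) (ext (K.pt y₀) (K.pt z₀)) := fun z => rfl
  have h1 : cycles S W 1 ≤ (Sn S W).comap Ψ := by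
    refine (hV.oneCycles W).trans (Submodule.span_le.mpr ?_)
    rintro _ ⟨D, F, hD, rfl⟩
    obtain ⟨p⟩ := hV.points D
    rw [SetLike.mem_coe, Submodule.mem_comap, ← Submodule.Quotient.mk_eq_zero]
    change q (Ψ (K.push F 1)) = 0
    rw [hΨ]
    have hF' : F = prod.lift (F ≫ prod.fst) (prod.lift (F ≫ prod.snd ≫ prod.fst) (F ≫ prod.snd ≫ prod.snd)) := by
      ext <;> simp
    have h2 := gross_push p hK hO hD (F ≫ prod.fst) (F ≫ prod.snd ≫ prod.fst) (F ≫ prod.snd ≫ prod.snd)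
    rw [← hF'] at h2
    have h3 := (Submodule.Quotient.mk_eq_zero (Sn S W)).mpr h2
    change q _ = 0 at h3
    have a1 : pXY (K.push F 1) = K.push (prod.lift (F ≫ prod.fst) (F ≫ prod.snd ≫ prod.fst)) 1 := by
      change K.push _ (K.push F 1) = _
      rw [← hF.push_comp, prod.comp_lift]
    have a2 : pXZ (K.push F 1) = K.push (prod.lift (F ≫ prod.fst) (F ≫ prod.snd ≫ prod.snd)) 1 := by
      change K.push _ (K.push F 1) = _
      rw [← hF.push_comp, prod.comp_lift]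
    have a3 : pYZ (K.push F 1) = K.push (prod.lift (F ≫ prod.snd ≫ prod.fst) (F ≫ prod.snd ≫ prod.snd)) 1 := by
      change K.push _ (K.push F 1) = _
      rw [← hF.push_comp]
      congr 2
      ext <;> simp
    have a4 : pX (K.push F 1) = K.push (F ≫ prod.fst) 1 := (hF.push_comp _ _ _).symm
    have a5 : pY (K.push F 1) = K.push (F ≫ prod.snd ≫ prod.fst) 1 := (hF.push_comp _ _ _).symm
    have a6 : pZ (K.push F 1) = K.push (F ≫ prod.snd ≫ prod.snd) 1 := (hF.push_comp _ _ _).symm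
    rw [a1, a2, a3, a4, a5, a6]
    simp only [map_add, map_sub] at h3 ⊢
    simp only [e1 (p ≫ F ≫ prod.fst), e2 (p ≫ F ≫ prod.snd ≫ prod.fst), e3 (p ≫ F ≫ prod.snd ≫ prod.snd),
      e4 (p ≫ F ≫ prod.snd ≫ prod.snd), e5 (p ≫ F ≫ prod.snd ≫ prod.fst)] at h3
    exact h3
  intro z hz hz'
  have h4 := h1 hz
  rw [Submodule.mem_comap, hΨ] at h4
  have b1 : ∀ (k : W ⟶ X ⨯ Y), K.push k z ∈ Sn S (X ⨯ Y) := fun k =>
    voev_sn hXY (hF.push_cycles _ _ _ hz) (hF.push_hom _ _ hz')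
  have b2 : ∀ (k : W ⟶ X ⨯ Z), K.push k z ∈ Sn S (X ⨯ Z) := fun k =>
    voev_sn hXZ (hF.push_cycles _ _ _ hz) (hF.push_hom _ _ hz')
  have b3 : ∀ (k : W ⟶ Y ⨯ Z), K.push k z ∈ Sn S (Y ⨯ Z) := fun k =>
    voev_sn hYZ (hF.push_cycles _ _ _ hz) (hF.push_hom _ _ hz')
  have b4 : ∀ (k : W ⟶ X), K.push k z ∈ Sn S X := fun k =>
    voev_sn (of_prod hK hXY).1 (hF.push_cycles _ _ _ hz) (hF.push_hom _ _ hz')
  have b5 : ∀ (k : W ⟶ Y), K.push k z ∈ Sn S Y := fun k =>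
    voev_sn (of_prod hK hXY).2 (hF.push_cycles _ _ _ hz) (hF.push_hom _ _ hz')
  have b6 : ∀ (k : W ⟶ Z), K.push k z ∈ Sn S Z := fun k =>
    voev_sn (of_prod hK hXZ).2 (hF.push_cycles _ _ _ hz) (hF.push_hom _ _ hz')
  have h5 : z = Ψ z + K.push (kz X Y Z) (ext (pXY z) (K.pt z₀)) + K.push (ky X Y Z) (ext (pXZ z) (K.pt y₀)) +
      ext (K.pt x₀) (pYZ z) - ext (K.pt x₀) (ext (K.pt y₀) (pZ z)) - ext (K.pt x₀) (ext (pY z) (K.pt z₀)) -
      ext (pX z) (ext (K.pt y₀) (K.pt z₀)) := by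
    rw [hΨ]
    abel
  have h6 : z ∈ Sn S W := by
    rw [h5, hΨ]
    exact Submodule.sub_mem _ (Submodule.sub_mem _ (Submodule.sub_mem _ (Submodule.add_mem _ (Submodule.add_mem _
      (Submodule.add_mem _ h4 (sn_push hF _ (sn_ext_left (b1 _) _))) (sn_push hF _ (sn_ext_left (b2 _) _)))
      (sn_ext_right _ (b3 _))) (sn_ext_right _ (sn_ext_right _ (b6 _)))) (sn_ext_right _ (sn_ext_left (b5 _) _)))
      (sn_ext_left (b4 _) _)
  exact h6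

end Pool.Agent.Helper88.SP
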