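import Pool.Agent.Helper88.SQ.Comp

/-!
# Varieties with an evenly finite-dimensional motive up to motives of curves
-/

set_option autoImplicit false
set_option linter.unusedVariables false

open CategoryTheory CategoryTheory.Limits Pool.Agent.Helper81.Smash Equiv

namespace Pool.Agent.Helper88.SP

attribute [local simp] prod.lift_fst prod.lift_snd prod.lift_fst_assoc prod.lift_snd_assoc

universe u v w

variable {𝒱 : Type u} [Category.{v} 𝒱] [HasFiniteProducts 𝒱] {S : HomCycles.{u, v, w} 𝒱} {K : PushForward S}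

/-- **Kimura's theorem**: odd times even -/
theorem odd_even_smash (hF : K.RFunctor) {C W X : 𝒱} (p : ⊤_ 𝒱 ⟶ C) (f : C ⟶ X) (x : W ⟶ C) (y : W ⟶ X)
    (E : S.A (X ⨯ X)) {a b m : ℕ} (hm : (a - 1) * b < m)
    (ha : (matrixOf (K.oddPart p) a).permanent = 0) (hb : (matrixOf E (b + 1)).det = 0) :
    S.smash (int K (odd K p x * S.pull (prod.lift (prod.fst ≫ f) (prod.snd ≫ y)) E)) m = 0 := by
  rw [int_def, ← hF.push_smash]
  let M : Fin m → Fin m → S.A (power (C ⨯ W) m) := fun k l =>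
    S.pull (prod.lift (coord (C ⨯ W) k ≫ prod.fst) ((coord (C ⨯ W) l ≫ prod.snd) ≫ x)) (K.oddPart p)
  let M' : Fin m → Fin m → S.A (power (C ⨯ W) m) := fun k l =>
    S.pull (prod.lift ((coord (C ⨯ W) k ≫ prod.fst) ≫ f) ((coord (C ⨯ W) l ≫ prod.snd) ≫ y)) E
  have h0 : S.smash (odd K p x) m = ∏ k, M k k := by
    rw [smash_def]
    refine Finset.prod_congr rfl fun k _ => ?_
    unfold odd
    rw [← S.pull_comp]
    congr 2
    ext <;> simp
  have h0' : S.smash (S.pull (prod.lift (prod.fst ≫ f) (prod.snd ≫ y) : C ⨯ W ⟶ X ⨯ X) E) m = ∏ k, M' k k := by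
    rw [smash_def]
    refine Finset.prod_congr rfl fun k _ => ?_
    rw [← S.pull_comp]
    congr 2
    ext <;> simp
  rw [smash_mul, h0, h0']
  have hMκ : ∀ (κ : Perm (Fin m)) (k l : Fin m), S.pull (auto C W κ) (M k l) = M (κ k) l := by
    intro κ k l
    rw [← S.pull_comp]
    congr 2
    apply Limits.prod.hom_ext
    · rw [Category.assoc, prod.lift_fst, prod.lift_fst, auto_coord_fst]
    · rw [Category.assoc, prod.lift_snd, prod.lift_snd, ← Category.assoc, auto_coord_snd]
  have hMκ' : ∀ (κ : Perm (Fin m)) (k l : Fin m), S.pull (auto C W κ) (M' k l) = M' (κ k) l := by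
    intro κ k l
    rw [← S.pull_comp]
    congr 2
    apply Limits.prod.hom_ext
    · rw [Category.assoc, prod.lift_fst, prod.lift_fst, ← Category.assoc, auto_coord_fst]
    · rw [Category.assoc, prod.lift_snd, prod.lift_snd, ← Category.assoc, auto_coord_snd]
  refine kimura (R := S.A (power (C ⨯ W) m)) a b hm M M'
    (K.push (powerMap (prod.snd : C ⨯ W ⟶ W) m)).toAddMonoidHom ?_ ?_ ?_
  · intro σ τ κ
    have h2 : S.pull (auto C W κ) ((∏ k, M k ((σ * κ) k)) * ∏ k, M' k ((τ * κ) k)) =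
        (∏ k, M k (σ k)) * ∏ k, M' k (τ k) := by
      rw [map_mul, map_prod, map_prod]
      congr 1
      · rw [Finset.prod_congr rfl fun k _ => hMκ κ k _]
        exact Equiv.prod_comp κ fun k => M k (σ k)
      · rw [Finset.prod_congr rfl fun k _ => hMκ' κ k _]
        exact Equiv.prod_comp κ fun k => M' k (τ k)
    have h3 := push_auto hF κ ((∏ k, M k ((σ * κ) k)) * ∏ k, M' k ((τ * κ) k))
    rw [h2] at h3
    exact h3
  · intro u v
    exact permanent_entry ha (fun i => coord (C ⨯ W) (u i) ≫ prod.fst)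
      (fun j => (coord (C ⨯ W) (v j) ≫ prod.snd) ≫ x)
  · intro u v
    exact det_entry hb (fun i => (coord (C ⨯ W) (u i) ≫ prod.fst) ≫ f)
      (fun j => (coord (C ⨯ W) (v j) ≫ prod.snd) ≫ y)

/-- the action of a correspondence on cycles -/
noncomputable def act (K : PushForward S) {X : 𝒱} (E : S.A (X ⨯ X)) : S.A X →ₗ[ℚ] S.A X :=
  int K ∘ₗ (LinearMap.mulRight ℚ E) ∘ₗ (S.pull (prod.fst : X ⨯ X ⟶ X)).toLinearMap

lemma act_apply {X : 𝒱} (E : S.A (X ⨯ X)) (a : S.A X) : act K E a = int K (S.pull prod.fst a * E) := rfl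

lemma act_sn (hF : K.RFunctor) {X : 𝒱} (E : S.A (X ⨯ X)) {a : S.A X} (ha : a ∈ Sn S X) : act K E a ∈ Sn S X :=
  sn_push hF _ (sn_mul (sn_pull _ ha) _)

/-- the odd part of a composition with a graph -/
lemma odd_part_eq (hF : K.RFunctor) (hB : K.RBase) {D X : 𝒱} (p : ⊤_ 𝒱 ⟶ D) (f : D ⟶ X) (E : S.A (X ⨯ X)) :
    int K (odd K p (prod.fst : D ⨯ X ⟶ D) * S.pull (prod.lift (prod.fst ≫ f) (prod.snd ≫ prod.snd)) E) =
      S.pull (prod.map f (𝟙 X)) E - ext 1 (act K E (K.pt (p ≫ f))) - ext (K.pt p) (act K E (K.push f 1)) := by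
  rw [int_odd hF hB, ← S.pull_comp, ← S.pull_comp]
  have e1 : sec (prod.fst : D ⨯ X ⟶ D) ≫ prod.lift (prod.fst ≫ f) (prod.snd ≫ prod.snd) = prod.map f (𝟙 X) := by
    unfold sec
    ext <;> simp
  have e2 : sec (cst (D ⨯ X) p) ≫ prod.lift (prod.fst ≫ f) (prod.snd ≫ prod.snd) =
      prod.snd ≫ sec (cst X (p ≫ f)) := by
    unfold sec
    apply Limits.prod.hom_ext
    · rw [Category.assoc, prod.lift_fst, ← Category.assoc, prod.lift_fst, Category.assoc, prod.lift_fst, cst_comp,
        comp_cst]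
    · simp
  have e3 : act K E (K.pt (p ≫ f)) = S.pull (sec (cst X (p ≫ f))) E := by
    rw [act_apply, int_pt hF hB]
  have e4 : act K E (K.push f 1) = int K (S.pull (prod.map f (𝟙 X)) E) := by
    rw [act_apply, ← hB.push_fst, map_one, mul_comm, ← hF.projection, mul_one, int_def, int_def, ← hF.push_comp,
      prod.map_snd, Category.comp_id]
  have e5 : int K (S.pull (prod.lift (prod.fst ≫ f) (prod.snd ≫ prod.snd) : D ⨯ (D ⨯ X) ⟶ X ⨯ X) E) =
      S.pull (prod.snd : D ⨯ X ⟶ X) (act K E (K.push f 1)) := by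
    rw [e4, pull_int hB, ← S.pull_comp]
    congr 3
    ext <;> simp
  rw [e1, e2, S.pull_comp, ← e3, e5, ext_one_left]
  rfl

/-- a correspondence with vanishing determinants acts on 1-cycles as if it had rank one, modulo smash-nilpotent
cycles -/
theorem comp_even (hK : K.RStandard) (hO : K.CurvesOdd) {X Y : 𝒱} (x₀ : ⊤_ 𝒱 ⟶ X) (y₀ : ⊤_ 𝒱 ⟶ Y) {E : S.A (X ⨯ X)}
    {n : ℕ} (hE : (matrixOf E n).det = 0) {w : S.A (Y ⨯ X)} (hw : w ∈ cycles S (Y ⨯ X) 1) :
    comp K w E - ext (K.push prod.fst w) (act K E (K.pt x₀)) - ext (K.pt y₀) (act K E (K.push prod.snd w)) ∈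
      Sn S (Y ⨯ X) := by
  have hF := hK.isFunctor
  have hB := hK.baseChange
  have hV := hK.varieties
  let Ψ : S.A (Y ⨯ X) →ₗ[ℚ] S.A (Y ⨯ X) := (compL K Y X X).flip E -
    (extL S Y X).flip (act K E (K.pt x₀)) ∘ₗ K.push prod.fst - extL S Y X (K.pt y₀) ∘ₗ act K E ∘ₗ K.push prod.snd
  have hΨ : ∀ w, Ψ w = comp K w E - ext (K.push prod.fst w) (act K E (K.pt x₀)) -
    ext (K.pt y₀) (act K E (K.push prod.snd w)) := fun w => rfl
  have h1 : cycles S (Y ⨯ X) 1 ≤ (Sn S (Y ⨯ X)).comap Ψ := by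
    refine (hV.oneCycles _).trans (Submodule.span_le.mpr ?_)
    rintro _ ⟨D, F, hD, rfl⟩
    obtain ⟨p⟩ := hV.points D
    rw [SetLike.mem_coe, Submodule.mem_comap, hΨ]
    obtain ⟨g, hg⟩ : ∃ g, g = F ≫ prod.fst := ⟨_, rfl⟩
    obtain ⟨f, hf⟩ : ∃ f, f = F ≫ prod.snd := ⟨_, rfl⟩
    have hF' : F = prod.lift g f := by
      rw [hg, hf]
      ext <;> simp
    have h2 : K.push F 1 = K.push (prod.map g (𝟙 X)) (K.graph f) := by
      unfold PushForward.graph
      rw [← hF.push_comp, prod.lift_map, Category.id_comp, Category.comp_id, hF']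
    have h3 : comp K (K.push F 1) E = K.push (prod.map g (𝟙 X))
        (int K (odd K p (prod.fst : D ⨯ X ⟶ D) * S.pull (prod.lift (prod.fst ≫ f) (prod.snd ≫ prod.snd)) E)) +
        ext (K.push g 1) (act K E (K.pt (p ≫ f))) + ext (K.pt (p ≫ g)) (act K E (K.push f 1)) := by
      rw [h2, comp_push hF hB, comp_graph_left hF hB, odd_part_eq hF hB, map_sub, map_sub, push_ext hF hB,
        push_ext hF hB, push_pt p hF]
      abel
    have h4 : int K (odd K p (prod.fst : D ⨯ X ⟶ D) * S.pull (prod.lift (prod.fst ≫ f) (prod.snd ≫ prod.snd)) E) ∈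
        Sn S (D ⨯ X) := by
      obtain ⟨a, ha⟩ := hO D p hD
      rcases n with _ | b
      · -- all rings are zero
        have h5 : ∀ {Z : 𝒱} (c : S.A Z), c = 0 := by
          intro Z c
          rw [Matrix.det_isEmpty] at hE
          have h6 := congrArg (S.pull (prod.lift (liftP (fun i : Fin 0 => i.elim0)) (liftP (fun i : Fin 0 => i.elim0)) :
            Z ⟶ power X 0 ⨯ power X 0)) hE
          rw [map_one, map_zero] at h6
          rw [← one_mul c, h6, zero_mul]
        exact ⟨1, le_rfl, h5 _⟩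
      · exact ⟨(a - 1) * b + 1, by omega, odd_even_smash hF p f prod.fst prod.snd E (Nat.lt_succ_self _) ha hE⟩
    have h7 : K.push prod.fst (K.push F 1) = K.push g 1 := by
      rw [← hF.push_comp, hg]
    have h8 : K.push prod.snd (K.push F 1) = K.push f 1 := by
      rw [← hF.push_comp, hf]
    rw [h3, h7, h8]
    have h9 : K.push (prod.map g (𝟙 X))
        (int K (odd K p (prod.fst : D ⨯ X ⟶ D) * S.pull (prod.lift (prod.fst ≫ f) (prod.snd ≫ prod.snd)) E)) +
        ext (K.push g 1) (act K E (K.pt (p ≫ f))) + ext (K.pt (p ≫ g)) (act K E (K.push f 1)) -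
        ext (K.push g 1) (act K E (K.pt x₀)) - ext (K.pt y₀) (act K E (K.push f 1)) =
        K.push (prod.map g (𝟙 X))
        (int K (odd K p (prod.fst : D ⨯ X ⟶ D) * S.pull (prod.lift (prod.fst ≫ f) (prod.snd ≫ prod.snd)) E)) +
        ext (K.push g 1) (act K E (K.pt (p ≫ f) - K.pt x₀)) +
        ext (K.pt (p ≫ g) - K.pt y₀) (act K E (K.push f 1)) := by
      rw [map_sub, ext_sub_right, ext_sub_left]
      abel
    rw [h9]
    exact Submodule.add_mem _ (Submodule.add_mem _ (sn_push hF _ h4)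
      (sn_ext_right _ (act_sn hF E (pt_sub_pt_sn hK hO _ _)))) (sn_ext_left (pt_sub_pt_sn hK hO _ _) _)
  exact h1 hw

/-- correspondences which factor through curves act on homologically trivial 1-cycles by smash-nilpotent cycles -/
theorem comp_through (hK : K.RStandard) (hO : K.CurvesOdd) {X Y : 𝒱} {r : ℕ} (hr : 1 ≤ r) {c : S.A (X ⨯ X)}
    (hT : c ∈ Submodule.span ℚ {c | K.FactorsThroughCurve r c})
    (hC : r ≤ 1 → ∀ C, S.dim C = 1 → Voevodsky S (Y ⨯ C) 1) {w : S.A (Y ⨯ X)} (hw : w ∈ cycles S (Y ⨯ X) 1)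
    (hw' : w ∈ S.hom (Y ⨯ X)) : comp K w c ∈ Sn S (Y ⨯ X) := by
  have hF := hK.isFunctor
  have hB := hK.baseChange
  have hV := hK.varieties
  have h7 : Submodule.span ℚ {c | K.FactorsThroughCurve r c} ≤ (Sn S (Y ⨯ X)).comap (compL K Y X X w) := by
    refine Submodule.span_le.mpr ?_
    rintro _ ⟨C, i, ρ, τ, hCdim, hi, hρ, rfl⟩
    rw [SetLike.mem_coe, Submodule.mem_comap, compL_apply, compose_eq, comp_assoc hF hB]
    refine comp_sn hF ?_ τ
    have h8 := comp_hom hF hw' ρ
    by_cases h9 : 1 ≤ S.dim (Y ⨯ X)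
    · rw [S.dim_prod] at h9
      have h10 : w ∈ S.gr (Y ⨯ X) (S.dim Y + S.dim X - 1) :=
        (mem_cycles_iff (by rw [S.dim_prod]; omega)).mp hw
      rcases Nat.lt_or_ge 2 i with h11 | h11
      · rw [comp_eq_zero hF hV h10 hρ (by omega)]
        exact Submodule.zero_mem _
      · rcases Nat.lt_or_ge i 2 with h12 | h12
        · have hi1 : i = 1 := by omega
          subst hi1
          exact voev_sn (hC hi C hCdim) (comp_mem_cycles hF hV h10 hρ (by omega)) h8
        · have hi2 : i = 2 := by omega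
          subst hi2
          exact zero_sn hK hO (comp_mem_cycles hF hV h10 hρ (by omega)) h8
    · rw [eq_zero_of_mem_cycles (not_le.mp h9) hw]
      unfold comp
      rw [map_zero, zero_mul, map_zero]
      exact Submodule.zero_mem _
  exact h7 hT

/-- the two parts of a cycle -/
theorem comp_even_through (hK : K.RStandard) (hO : K.CurvesOdd) {X Y : 𝒱} {r : ℕ} (hr : 1 ≤ r)
    (hE : K.EvenUpToCurves X r) (hC : r ≤ 1 → ∀ C, S.dim C = 1 → Voevodsky S (Y ⨯ C) 1) {w : S.A (Y ⨯ X)}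
    (hw : w ∈ cycles S (Y ⨯ X) 1) (hw' : w ∈ S.hom (Y ⨯ X)) (h2 : K.push prod.fst w ∈ Sn S Y)
    (h3 : K.push prod.snd w ∈ Sn S X) : w ∈ Sn S (Y ⨯ X) := by
  have hF := hK.isFunctor
  have hB := hK.baseChange
  have hV := hK.varieties
  obtain ⟨x₀⟩ := hV.points X
  obtain ⟨y₀⟩ := hV.points Y
  obtain ⟨E, n, hE, hT⟩ := hE
  have h1 := comp_even hK hO x₀ y₀ hE hw
  have h4 : comp K w E ∈ Sn S (Y ⨯ X) := by
    have h5 : comp K w E = comp K w E - ext (K.push prod.fst w) (act K E (K.pt x₀)) -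
        ext (K.pt y₀) (act K E (K.push prod.snd w)) + ext (K.push prod.fst w) (act K E (K.pt x₀)) +
        ext (K.pt y₀) (act K E (K.push prod.snd w)) := by abel
    rw [h5]
    exact Submodule.add_mem _ (Submodule.add_mem _ h1 (sn_ext_left h2 _)) (sn_ext_right _ (act_sn hF E h3))
  have h6 := comp_through hK hO hr hT hC hw hw'
  have h13 : w = comp K w E + comp K w (K.graph (𝟙 X) - E) := by
    rw [← comp_add_right, add_sub_cancel, comp_graph hF hB]
  rw [h13]
  exact Submodule.add_mem _ h4 h6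

/-- **Transfer.** -/
theorem transfer (hK : K.RStandard) (hO : K.CurvesOdd) {X Y : 𝒱} {r : ℕ} (hr : 1 ≤ r)
    (hE : K.EvenUpToCurves X r) (hX : Voevodsky S X 1) (hY : Voevodsky S Y 1)
    (hC : r ≤ 1 → ∀ C, S.dim C = 1 → Voevodsky S (Y ⨯ C) 1) : Voevodsky S (Y ⨯ X) 1 := by
  have hF := hK.isFunctor
  intro w hw hw'
  have h14 : w ∈ Sn S (Y ⨯ X) := comp_even_through hK hO hr hE hC hw hw'
    (voev_sn hY (hF.push_cycles _ _ _ hw) (hF.push_hom _ _ hw'))
    (voev_sn hX (hF.push_cycles _ _ _ hw) (hF.push_hom _ _ hw'))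
  exact h14

/-- graphs of morphisms from curves to regular varieties with an evenly finite-dimensional motive up to motives
of curves split -/
theorem splits_of_even (hK : K.RStandard) (hO : K.CurvesOdd) {Y : 𝒱} (hY : K.Regular Y)
    (hE : K.EvenUpToCurves Y 2) : Splits K Y where
  gam_mem := fun C p y g hC => by
    have hF := hK.isFunctor
    have hD := hK.degrees
    have hg : K.push g 1 ∈ cycles S Y 1 := hF.push_cycles _ _ _ (one_mem_cycles hC)
    have hfst : K.push (prod.fst : C ⨯ Y ⟶ C) (gam K p y g) = 0 := by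
      unfold gam
      rw [map_sub, map_sub, push_fst_ext hF hD, push_fst_ext hF hD, hD.deg_pt, hD.deg_cycles 0 _ hg,
        RingHom.map_zero, RingHom.map_one, mul_zero, mul_one, sub_zero]
      unfold PushForward.graph
      rw [← hF.push_comp, prod.lift_fst, hF.push_id, sub_self]
    have hsnd : K.push (prod.snd : C ⨯ Y ⟶ Y) (gam K p y g) = 0 := by
      unfold gam
      rw [map_sub, map_sub, push_snd_ext hF hD, push_snd_ext hF hD, hD.deg_pt, deg_one hD (by omega),
        RingHom.map_zero, RingHom.map_one, mul_zero, mul_one, sub_zero]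
      unfold PushForward.graph
      rw [← hF.push_comp, prod.lift_snd, sub_self]
    have h1 := Pool.Agent.Helper88.SP.gam_mem hK hC hY p y g
    refine ⟨h1.2, ?_⟩
    have h2 : gam K p y g ∈ Sn S (C ⨯ Y) :=
      comp_even_through hK hO (by norm_num) hE (fun h => absurd h (by norm_num)) h1.1 h1.2
        (by rw [hfst]; exact Submodule.zero_mem _) (by rw [hsnd]; exact Submodule.zero_mem _)
    exact h2
  pt_mem := fun C s t b hC _ => nil_ext_left (pt_sub_pt_mem hK hO hC s t) b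

end Pool.Agent.Helper88.SP
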